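import Pool.Agent.V11193.Ver.Sph

/-! Completeness: eigenfunctions with small eigenvalue are quadratic forms. -/

set_option autoImplicit false

open Pool.Agent.H85R3.Minimal MeasureTheory
open scoped ContDiff RealInnerProductSpace Topology

namespace Pool.Agent.V11193.Ver

variable {n : ℕ}

/-! ### Algebra of homogeneous functions -/

theorem IsP.add {k : ℕ} {P Q : E (n + 1) → ℝ} (hP : IsP k P) (hQ : IsP k Q) : IsP k (P + Q) where
  smooth := hP.smooth.add hQ.smooth
  hom := fun t ht z => by simp only [Pi.add_apply]; rw [hP.hom t ht, hQ.hom t ht]; ring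

theorem IsP.smul {k : ℕ} {P : E (n + 1) → ℝ} (hP : IsP k P) (c : ℝ) : IsP k (c • P) where
  smooth := contDiff_const.smul hP.smooth
  hom := fun t ht z => by simp only [Pi.smul_apply, smul_eq_mul]; rw [hP.hom t ht]; ring

theorem isP_zero (k : ℕ) : IsP k (0 : E (n + 1) → ℝ) where
  smooth := contDiff_const
  hom := fun t ht z => by simp

theorem isP_const (c : ℝ) : IsP 0 (fun _ : E (n + 1) => c) where
  smooth := contDiff_const
  hom := fun t ht z => by simp

theorem isP_coord (i : Fin (n + 1)) : IsP 1 (fun z : E (n + 1) => z i) where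
  smooth := by fun_prop
  hom := fun t ht z => by simp

theorem isP_nsq : IsP 2 (fun z : E (n + 1) => ‖z‖ ^ 2) where
  smooth := contDiff_norm_sq ℝ
  hom := fun t ht z => by
    rw [norm_smul, mul_pow, Real.norm_eq_abs, sq_abs]

theorem IsH.add {F G : E (n + 1) → ℝ} (hF : IsH F) (hG : IsH G) : IsH (F + G) where
  smooth := hF.smooth.add hG.smooth
  hom := fun t ht z => by simp only [Pi.add_apply]; rw [hF.hom t ht, hG.hom t ht]

theorem IsH.smul {F : E (n + 1) → ℝ} (hF : IsH F) (c : ℝ) : IsH (c • F) where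
  smooth := contDiffOn_const.smul hF.smooth
  hom := fun t ht z => by simp only [Pi.smul_apply]; rw [hF.hom t ht]

theorem IsH.zero_of_J {F : E (n + 1) → ℝ} (hF : IsH F) (h : J F F = 0) : ∀ z, z ≠ 0 → F z = 0 :=
  J_self_eq_zero hF.cont (fun t ht z => hF.hom t ht.ne' z) h

theorem quo_unit {m : ℕ} {P : E (n + 1) → ℝ} (hP : IsP (2 * m) P) {z : E (n + 1)} (hz : z ≠ 0) :
    P (‖z‖⁻¹ • z) = quo m P z := by
  have h0 : ‖z‖ ≠ 0 := by positivity
  rw [hP.hom _ (inv_ne_zero h0), quo, pow_mul, inv_pow, inv_pow, div_eq_inv_mul]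

theorem norm_unit {z : E (n + 1)} (hz : z ≠ 0) : ‖‖z‖⁻¹ • z‖ = 1 := by
  have h0 : ‖z‖ ≠ 0 := by positivity
  rw [norm_smul, norm_inv, norm_norm, inv_mul_cancel₀ h0]

theorem lapN_eig {F : E (n + 1) → ℝ} (hF : IsH F) {c : ℝ}
    (h : ∀ p, ‖p‖ = 1 → lap F p = -c * F p) {z : E (n + 1)} (hz : z ≠ 0) :
    lapN F z = -c * F z := by
  have h0 : ‖z‖ ≠ 0 := by positivity
  rw [lapN, hF.lap_norm hz, h _ (norm_unit hz), hF.hom _ (inv_ne_zero h0)]

theorem lapN_quo {m : ℕ} {P : E (n + 1) → ℝ} (hP : IsP (2 * (m + 1)) P) {z : E (n + 1)}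
    (hz : z ≠ 0) : lapN (quo (m + 1) P) z =
      quo m (lap P) z - 2 * (m + 1) * (2 * (m + 1) + n - 1) * quo (m + 1) P z := by
  rw [lapN, hP.isH.lap_norm hz, hP.lap_quo (norm_unit hz), quo_unit hP hz]
  have h2 : IsP (2 * m) (lap P) := IsP.lap (k := 2 * m) hP
  rw [quo_unit h2 hz]
  push_cast
  ring

/-! ### Quadratic forms -/

/-- The quadratic monomials. -/
noncomputable def mon (s : Sym2 (Fin (n + 1))) (z : E (n + 1)) : ℝ :=
  Sym2.lift ⟨fun i j => z i * z j, fun _ _ => mul_comm _ _⟩ s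

@[simp] theorem mon_mk (i j : Fin (n + 1)) (z : E (n + 1)) : mon s(i, j) z = z i * z j := rfl

theorem isP_mon (s : Sym2 (Fin (n + 1))) : IsP 2 (mon s) := by
  induction s with
  | _ i j => exact (isP_coord i).mul (isP_coord j)

variable (n) in
/-- The space of quadratic forms, as homogeneous functions of degree `0`. -/
noncomputable def Qsp : Submodule ℝ (E (n + 1) → ℝ) :=
  Submodule.span ℝ (Set.range fun s => quo 1 (mon s))

instance : FiniteDimensional ℝ (Qsp n) := FiniteDimensional.span_of_finite ℝ (Set.finite_range _)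

theorem quo_add (m : ℕ) (P Q : E (n + 1) → ℝ) : quo m (P + Q) = quo m P + quo m Q := by
  funext z; simp [quo, add_div]

theorem quo_smul (m : ℕ) (c : ℝ) (P : E (n + 1) → ℝ) : quo m (c • P) = c • quo m P := by
  funext z; simp [quo, mul_div_assoc]

theorem exists_of_mem {Q : E (n + 1) → ℝ} (hQ : Q ∈ Qsp n) : ∃ P, IsP 2 P ∧ Q = quo 1 P := by
  induction hQ using Submodule.span_induction with
  | mem x hx =>
    obtain ⟨s, rfl⟩ := hx
    exact ⟨_, isP_mon s, rfl⟩
  | zero => exact ⟨0, isP_zero 2, by funext z; simp [quo]⟩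
  | add x y _ _ hx hy =>
    obtain ⟨P, hP, rfl⟩ := hx
    obtain ⟨P', hP', rfl⟩ := hy
    exact ⟨_, hP.add hP', (quo_add 1 P P').symm⟩
  | smul c x _ hx =>
    obtain ⟨P, hP, rfl⟩ := hx
    exact ⟨_, hP.smul c, (quo_smul 1 c P).symm⟩

theorem isP_zero_at {P : E (n + 1) → ℝ} (hP : IsP 2 P) : P 0 = 0 := by
  have := hP.hom 2 two_ne_zero 0
  rw [smul_zero] at this
  linarith

theorem basis_sum (z : E (n + 1)) : z = ∑ k, z k • (bv k : E (n + 1)) := by
  have := (EuclideanSpace.basisFun (Fin (n + 1)) ℝ).sum_repr z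
  simpa using this.symm

theorem quad_formula {P : E (n + 1) → ℝ} (hP : IsP 2 P) (z : E (n + 1)) :
    P z = ∑ i, ∑ j, (1 / 2 * D2 P 0 (bv i) (bv j)) * (z i * z j) := by
  have h1 := (D2_of_curve (φ := P) (x := 0) (u := z) (c₁ := fun t => 2 * t * P z) (w := 2 * P z)
    (hP.smooth.contDiffAt.of_le le_two) (fun t => by
      have h2 : HasDerivAt (fun s : ℝ => s ^ 2 * P z) (2 * t * P z) t := by
        have := ((hasDerivAt_id t).pow 2).mul_const (P z)
        simpa using this
      refine h2.congr_of_eventuallyEq (Filter.Eventually.of_forall fun s => ?_)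
      simp only [zero_add]
      by_cases hs : s = 0
      · rw [hs, zero_smul, isP_zero_at hP]; ring
      · exact hP.hom s hs z) (by
      have := (((hasDerivAt_id (0 : ℝ)).const_mul 2).mul_const (P z))
      simpa using this)).2
  have h2 : D2 P 0 z z = ∑ i, ∑ j, z i * (z j * D2 P 0 (bv i) (bv j)) := by
    have h3 : D2 P 0 z z = D2 P 0 (∑ i, z i • (bv i : E (n + 1))) (∑ j, z j • (bv j : E (n + 1))) := by
      rw [← basis_sum z]
    rw [h3, map_sum (D2 P 0), _root_.sum_apply]
    refine Finset.sum_congr rfl fun i _ => ?_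
    rw [map_smul, _root_.smul_apply, map_sum, Finset.smul_sum]
    refine Finset.sum_congr rfl fun j _ => ?_
    rw [map_smul, smul_eq_mul, smul_eq_mul]
  have h4 : P z = 1 / 2 * D2 P 0 z z := by rw [h1]; ring
  rw [h4, h2, Finset.mul_sum]
  refine Finset.sum_congr rfl fun i _ => ?_
  rw [Finset.mul_sum]
  refine Finset.sum_congr rfl fun j _ => ?_
  ring

theorem quad_mem {P : E (n + 1) → ℝ} (hP : IsP 2 P) : quo 1 P ∈ Qsp n := by
  have h : quo 1 P = ∑ i, ∑ j, (1 / 2 * D2 P 0 (bv i) (bv j)) • quo 1 (mon s(i, j)) := by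
    funext z
    simp only [Finset.sum_apply, Pi.smul_apply, smul_eq_mul]
    rw [quo, quad_formula hP z, Finset.sum_div]
    refine Finset.sum_congr rfl fun i _ => ?_
    rw [Finset.sum_div]
    refine Finset.sum_congr rfl fun j _ => ?_
    rw [quo, mon_mk, mul_div_assoc]
  rw [h]
  exact Submodule.sum_mem _ fun i _ => Submodule.sum_mem _ fun j _ =>
    Submodule.smul_mem _ _ (Submodule.subset_span ⟨_, rfl⟩)

theorem isH_of_mem {Q : E (n + 1) → ℝ} (hQ : Q ∈ Qsp n) : IsH Q := by
  obtain ⟨P, hP, rfl⟩ := exists_of_mem hQ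
  exact IsP.isH (m := 1) hP

theorem zero_of_mem {Q : E (n + 1) → ℝ} (hQ : Q ∈ Qsp n) : Q 0 = 0 := by
  obtain ⟨P, hP, rfl⟩ := exists_of_mem hQ
  simp [quo]

theorem isP_lap_const {P : E (n + 1) → ℝ} (hP : IsP 0 P) (z : E (n + 1)) : P z = P 0 := by
  have h1 : Filter.Tendsto (fun t : ℝ => P (t • z)) (𝓝[≠] 0) (𝓝 (P 0)) := by
    have : Filter.Tendsto (fun t : ℝ => P (t • z)) (𝓝 0) (𝓝 (P ((0 : ℝ) • z))) :=
      (hP.smooth.continuous.comp (continuous_id.smul continuous_const)).tendsto 0
    rw [zero_smul] at this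
    exact this.mono_left nhdsWithin_le_nhds
  have h2 : Filter.Tendsto (fun t : ℝ => P (t • z)) (𝓝[≠] 0) (𝓝 (P z)) := by
    refine tendsto_const_nhds.congr' ?_
    filter_upwards [self_mem_nhdsWithin] with t ht
    rw [hP.hom t ht, pow_zero, one_mul]
  exact tendsto_nhds_unique h2 h1

theorem lapN_mem {Q : E (n + 1) → ℝ} (hQ : Q ∈ Qsp n) :
    ∃ Q' ∈ Qsp n, ∀ z, z ≠ 0 → Q' z = lapN Q z := by
  obtain ⟨P, hP, rfl⟩ := exists_of_mem hQ
  have hP' : IsP (2 * (0 + 1)) P := hP
  have hL : IsP 0 (lap P) := IsP.lap (k := 0) hP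
  refine ⟨quo 1 (lap P 0 • (fun z : E (n + 1) => ‖z‖ ^ 2) + (-(2 * (2 + n - 1) : ℝ)) • P),
    quad_mem ((isP_nsq.smul _).add (hP.smul _)), fun z hz => ?_⟩
  have h0 : ‖z‖ ^ 2 ≠ 0 := by positivity
  have := lapN_quo hP' hz
  simp only [zero_add] at this
  rw [this, quo_add, quo_smul, quo_smul, quo, isP_lap_const hL z]
  simp only [Pi.add_apply, Pi.smul_apply, smul_eq_mul, pow_zero, div_one]
  have h1 : quo 1 (fun z : E (n + 1) => ‖z‖ ^ 2) z = 1 := by
    simp only [quo, pow_one]
    exact div_self h0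
  rw [h1]
  norm_num
  ring

/-! ### Orthogonal projection to the quadratic forms -/

theorem J_add_left {F G K : E (n + 1) → ℝ} (hF : IsH F) (hG : IsH G) (hK : IsH K) :
    J (F + G) K = J F K + J G K := by
  rw [J_comm, J_add hF.cont hG.cont hK.cont, J_comm K F, J_comm K G]

theorem J_smul_left (c : ℝ) (F K : E (n + 1) → ℝ) : J (c • F) K = c * J F K := by
  rw [J_comm, J_smul, J_comm K F]

/-- The functional `q ↦ J F q` on the quadratic forms. -/
noncomputable def Jf {F : E (n + 1) → ℝ} (hF : IsH F) : Qsp n →ₗ[ℝ] ℝ where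
  toFun q := J F q
  map_add' q q' := J_add (isH_of_mem q.2).cont (isH_of_mem q'.2).cont hF.cont
  map_smul' c _ := J_smul c _ _

/-- The Gram map. -/
noncomputable def Jm (n : ℕ) : Qsp n →ₗ[ℝ] Module.Dual ℝ (Qsp n) where
  toFun Q := Jf (isH_of_mem Q.2)
  map_add' Q Q' := by
    ext q
    exact J_add_left (isH_of_mem Q.2) (isH_of_mem Q'.2) (isH_of_mem q.2)
  map_smul' c Q := by
    ext q
    exact J_smul_left c _ _

theorem Jm_injective : Function.Injective (Jm n) := by
  rw [← LinearMap.ker_eq_bot, LinearMap.ker_eq_bot']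
  intro Q hQ
  have h1 : J (Q : E (n + 1) → ℝ) Q = 0 := by
    have := congrArg (fun L : Module.Dual ℝ (Qsp n) => L Q) hQ
    exact this
  have h2 := (isH_of_mem Q.2).zero_of_J h1
  apply Subtype.ext
  funext z
  by_cases hz : z = 0
  · rw [hz, zero_of_mem Q.2]; rfl
  · exact h2 z hz

theorem exists_proj {F : E (n + 1) → ℝ} (hF : IsH F) :
    ∃ Q ∈ Qsp n, ∀ q ∈ Qsp n, J Q q = J F q := by
  have hs : Function.Surjective (Jm n) :=
    (LinearMap.injective_iff_surjective_of_finrank_eq_finrank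
      (Subspace.dual_finrank_eq (K := ℝ) (V := Qsp n)).symm).mp Jm_injective
  obtain ⟨Q, hQ⟩ := hs (Jf hF)
  refine ⟨Q, Q.2, fun q hq => ?_⟩
  have := congrArg (fun L : Module.Dual ℝ (Qsp n) => L ⟨q, hq⟩) hQ
  exact this

/-! ### The recursion -/

theorem recursion {R : E (n + 1) → ℝ} (hR : IsH R) {c : ℝ} (hc : c < 4 * (n + 3))
    (hRc : ∀ G : E (n + 1) → ℝ, IsH G → J R (lapN G) = -c * J R G)
    (hQ : ∀ q ∈ Qsp n, J R q = 0) :
    ∀ (m : ℕ) (P : E (n + 1) → ℝ), IsP (2 * m) P → J R (quo m P) = 0 := by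
  intro m
  induction m with
  | zero =>
    intro P hP
    have h1 : quo 1 (P 0 • fun z : E (n + 1) => ‖z‖ ^ 2) ∈ Qsp n := quad_mem (isP_nsq.smul _)
    rw [J_congr (F' := R) (G' := quo 1 (P 0 • fun z : E (n + 1) => ‖z‖ ^ 2)) (fun z _ => rfl)
      fun z hz => ?_]
    · exact hQ _ h1
    · have h0 : ‖z‖ ^ 2 ≠ 0 := by positivity
      simp only [quo, Pi.smul_apply, smul_eq_mul, pow_one, pow_zero, div_one]
      rw [mul_div_assoc, div_self h0, mul_one, isP_lap_const hP z]
  | succ m ih =>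
    intro P hP
    rcases Nat.eq_zero_or_pos m with rfl | hm
    · exact hQ _ (quad_mem hP)
    · have h1 := hRc _ hP.isH
      have hL : IsP (2 * m) (lap P) := IsP.lap (k := 2 * m) hP
      have h2 : J R (lapN (quo (m + 1) P)) = J R (quo m (lap P) +
          (-(2 * (m + 1) * (2 * (m + 1) + n - 1) : ℝ)) • quo (m + 1) P) := by
        refine J_congr (fun z _ => rfl) fun z hz => ?_
        rw [lapN_quo hP hz]
        simp only [Pi.add_apply, Pi.smul_apply, smul_eq_mul]
        ring
      rw [h2, J_add hL.isH.cont (hP.isH.smul _).cont hR.cont, J_smul, ih _ hL] at h1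
      have h3 : (2 * (m + 1) * (2 * (m + 1) + n - 1) - c) * J R (quo (m + 1) P) = 0 := by linarith
      rcases mul_eq_zero.mp h3 with h4 | h4
      · exfalso
        have h5 : (1 : ℝ) ≤ m := by exact_mod_cast hm
        have h6 : (0 : ℝ) ≤ n := Nat.cast_nonneg n
        nlinarith [mul_nonneg (by linarith : (0 : ℝ) ≤ m - 1) h6]
      · exact h4

/-! ### Density -/

/-- The integral of `R` against a function of the direction. -/
noncomputable def lam (R P : E (n + 1) → ℝ) : ℝ := ∫ z, wt z * (R z * P (‖z‖⁻¹ • z))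

theorem contOn_unit {P : E (n + 1) → ℝ} (hP : Continuous P) :
    ContinuousOn (fun z => P (‖z‖⁻¹ • z)) {0}ᶜ := by
  refine hP.comp_continuousOn (ContinuousOn.smul (ContinuousOn.inv₀ continuous_norm.continuousOn ?_)
    continuousOn_id)
  intro z hz
  have : z ≠ 0 := hz
  positivity

theorem lam_isP {R : E (n + 1) → ℝ} (hR : IsH R)
    (h : ∀ (m : ℕ) (P : E (n + 1) → ℝ), IsP (2 * m) P → J R (quo m P) = 0)
    {k : ℕ} {P : E (n + 1) → ℝ} (hP : IsP k P) : lam R P = 0 := by
  rcases Nat.even_or_odd' k with ⟨m, rfl | rfl⟩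
  · rw [← h m P hP]
    unfold lam J
    congr 1
    funext z
    by_cases hz : z = 0
    · rw [hz, wt_zero]; ring
    · rw [quo_unit hP hz]
  · have h1 : lam R P = -lam R P := by
      conv_lhs => unfold lam
      rw [← integral_neg_eq_self, lam, ← integral_neg]
      congr 1
      funext z
      have h2 : wt (-z) = wt z := by simp [wt, psi]
      have h3 : R (-z) = R z := by
        have := hR.hom (-1) (by norm_num) z
        simpa using this
      have h4 : P (‖-z‖⁻¹ • -z) = -P (‖z‖⁻¹ • z) := by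
        have := hP.hom (-1) (by norm_num) (‖z‖⁻¹ • z)
        rw [norm_neg, smul_neg]
        have h5 : (-1 : ℝ) ^ (2 * m + 1) = -1 := by rw [pow_add, pow_mul]; norm_num
        rw [h5] at this
        simpa using this
      rw [h2, h3, h4]
      ring
    linarith

variable (n) in
/-- The algebra generated by the homogeneous functions. -/
noncomputable def alg : Subalgebra ℝ C(E (n + 1), ℝ) :=
  Algebra.adjoin ℝ {g | ∃ k, IsP k g}

theorem lam_alg {R : E (n + 1) → ℝ} (hR : IsH R)
    (h : ∀ (m : ℕ) (P : E (n + 1) → ℝ), IsP (2 * m) P → J R (quo m P) = 0)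
    {g : C(E (n + 1), ℝ)} (hg : g ∈ alg n) : lam R g = 0 := by
  have hcl : (Submonoid.closure {g : C(E (n + 1), ℝ) | ∃ k, IsP k g} : Set C(E (n + 1), ℝ)) ⊆
      {g | ∃ k, IsP k g} := by
    intro g hg
    induction hg using Submonoid.closure_induction with
    | mem x hx => exact hx
    | one => exact ⟨0, isP_const 1⟩
    | mul x y _ _ hx hy =>
      obtain ⟨k, hk⟩ := hx
      obtain ⟨l, hl⟩ := hy
      exact ⟨k + l, hk.mul hl⟩
  have hspan : g ∈ Submodule.span ℝ {g : C(E (n + 1), ℝ) | ∃ k, IsP k g} := by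
    have h1 : g ∈ Subalgebra.toSubmodule (alg n) := hg
    rw [alg, Algebra.adjoin_eq_span] at h1
    exact Submodule.span_mono hcl h1
  clear hg
  induction hspan using Submodule.span_induction with
  | mem x hx =>
    obtain ⟨k, hk⟩ := hx
    exact lam_isP hR h hk
  | zero => simp [lam]
  | add x y _ _ hx hy =>
    have i1 : Integrable fun z => wt z * (R z * x (‖z‖⁻¹ • z)) :=
      integrable_wt (hR.cont.mul (contOn_unit x.continuous))
    have i2 : Integrable fun z => wt z * (R z * y (‖z‖⁻¹ • z)) :=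
      integrable_wt (hR.cont.mul (contOn_unit y.continuous))
    have : lam R (x + y : C(E (n + 1), ℝ)) = lam R x + lam R y := by
      unfold lam
      rw [← integral_add i1 i2]
      congr 1
      funext z
      simp only [ContinuousMap.add_apply]
      ring
    rw [this, hx, hy, add_zero]
  | smul c x _ hx =>
    have : lam R (c • x : C(E (n + 1), ℝ)) = c * lam R x := by
      unfold lam
      rw [← integral_const_mul]
      congr 1
      funext z
      simp only [ContinuousMap.smul_apply, smul_eq_mul]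
      ring
    rw [this, hx, mul_zero]

theorem alg_separates : (alg n).SeparatesPoints := by
  intro x y hxy
  obtain ⟨i, hi⟩ : ∃ i, x i ≠ y i := by
    by_contra hcon
    push Not at hcon
    exact hxy (by ext i; exact hcon i)
  refine ⟨fun z => z i, ⟨⟨fun z => z i, by fun_prop⟩, ?_, rfl⟩, hi⟩
  exact Algebra.subset_adjoin ⟨1, isP_coord i⟩

theorem eq_zero_of_orthogonal {R : E (n + 1) → ℝ} (hR : IsH R)
    (h : ∀ (m : ℕ) (P : E (n + 1) → ℝ), IsP (2 * m) P → J R (quo m P) = 0) :
    ∀ z, z ≠ 0 → R z = 0 := by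
  apply hR.zero_of_J
  apply le_antisymm _ (J_self_nonneg R)
  -- a continuous function that agrees with `R` on the unit sphere
  set f : E (n + 1) → ℝ := fun z => Real.smoothTransition (2 * ‖z‖ ^ 2 - 1) * R z with hf
  have hfc : Continuous f := by
    refine cont_of (r := 1 / 2) (ContinuousOn.mul ?_ hR.cont) (by norm_num) fun z hz => ?_
    · exact (Real.smoothTransition.continuous.comp (by fun_prop)).continuousOn
    · simp only [hf]
      rw [Real.smoothTransition.zero_of_nonpos (by nlinarith [norm_nonneg z]), zero_mul]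
  have hf1 : ∀ z, ‖z‖ = 1 → f z = R z := by
    intro z hz
    simp only [hf, hz]
    norm_num
  set A : ℝ := ∫ z, wt z * |R z| with hA
  have hi : Integrable fun z => wt z * |R z| := integrable_wt hR.cont.abs
  have hA0 : 0 ≤ A := integral_nonneg fun z => mul_nonneg (wt_nonneg z) (abs_nonneg _)
  have key : ∀ ε : ℝ, 0 < ε → J R R ≤ ε * A := by
    intro ε hε
    obtain ⟨g, hg, hgf⟩ :=
      ContinuousMap.exists_mem_subalgebra_near_continuous_of_isCompact_of_separatesPoints
        (alg_separates (n := n)) ⟨f, hfc⟩ (isCompact_sphere (0 : E (n + 1)) 1) hε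
    have h1 := lam_alg hR h hg
    have i1 : Integrable fun z => wt z * (R z * R z) := integrable_wt (hR.cont.mul hR.cont)
    have i2 : Integrable fun z => wt z * (R z * g (‖z‖⁻¹ • z)) :=
      integrable_wt (hR.cont.mul (contOn_unit g.continuous))
    have h2 : J R R = ∫ z, (wt z * (R z * R z) - wt z * (R z * g (‖z‖⁻¹ • z))) := by
      rw [integral_sub i1 i2]
      have : ∫ z, wt z * (R z * g (‖z‖⁻¹ • z)) = 0 := h1
      rw [this, sub_zero]
      rfl
    rw [h2, hA, ← integral_const_mul]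
    refine integral_mono (i1.sub i2) (hi.const_mul ε) fun z => ?_
    simp only []
    by_cases hz : z = 0
    · rw [hz, wt_zero]; simp
    · have h3 : f (‖z‖⁻¹ • z) = R z := by
        have h0 : ‖z‖ ≠ 0 := by positivity
        rw [hf1 _ (norm_unit hz), hR.hom _ (inv_ne_zero h0)]
      have h4 := hgf (‖z‖⁻¹ • z) (by simpa using norm_unit hz)
      simp only [ContinuousMap.coe_mk] at h4
      rw [h3, Real.norm_eq_abs, abs_lt] at h4
      have h5 : R z * (R z - g (‖z‖⁻¹ • z)) ≤ |R z| * ε := by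
        refine (le_abs_self _).trans ?_
        rw [abs_mul]
        refine mul_le_mul_of_nonneg_left ?_ (abs_nonneg _)
        rw [abs_le]
        constructor <;> linarith [h4.1, h4.2]
      have h6 := wt_nonneg z
      nlinarith
  by_contra hcon
  push Not at hcon
  rcases hA0.eq_or_lt with h0 | h0
  · have := key 1 one_pos
    rw [← h0] at this
    linarith
  · have := key (J R R / (2 * A)) (by positivity)
    have h3 : J R R / (2 * A) * A = J R R / 2 := by field_simp
    linarith

/-- Eigenfunctions of the sphere that are constant on lines, with eigenvalue below the one of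
quartic harmonic polynomials, are quadratic forms. -/
theorem eig_mem {F : E (n + 1) → ℝ} (hF : IsH F) {c : ℝ} (hc : c < 4 * (n + 3))
    (h : ∀ p, ‖p‖ = 1 → lap F p = -c * F p) : ∃ Q ∈ Qsp n, ∀ z, z ≠ 0 → F z = Q z := by
  obtain ⟨Q, hQ, hproj⟩ := exists_proj hF
  have hQH := isH_of_mem hQ
  have hlF : ∀ z, z ≠ 0 → lapN F z = (-c • F) z := fun z hz => by
    rw [lapN_eig hF h hz]; rfl
  -- the projection is an eigenfunction with the same eigenvalue
  obtain ⟨Q', hQ', hQQ'⟩ := lapN_mem hQ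
  have hD : Q' + c • Q ∈ Qsp n := Submodule.add_mem _ hQ' (Submodule.smul_mem _ _ hQ)
  have hDq : ∀ q ∈ Qsp n, J (Q' + c • Q) q = 0 := by
    intro q hq
    have hqH := isH_of_mem hq
    obtain ⟨q', hq', hqq'⟩ := lapN_mem hq
    have e1 : J Q' q = J F (lapN q) := by
      rw [J_congr hQQ' (fun z _ => rfl) (G' := q), J_comm, J_lapN_symm hQH hqH,
        J_congr (F' := Q) (fun z _ => rfl) (fun z hz => (hqq' z hz).symm), hproj q' hq']
      exact J_congr (fun z _ => rfl) hqq'
    have e2 : J F (lapN q) = -c * J F q := by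
      rw [J_lapN_symm hqH hF, J_congr (F' := q) (fun z _ => rfl) hlF, J_smul, J_comm]
    rw [J_add_left (isH_of_mem hQ') (hQH.smul c) hqH, J_smul_left, e1, e2, hproj q hq]
    ring
  have hD0 := (isH_of_mem hD).zero_of_J (hDq _ hD)
  have hlQ : ∀ z, z ≠ 0 → lapN Q z = (-c • Q) z := by
    intro z hz
    have := hD0 z hz
    simp only [Pi.add_apply, Pi.smul_apply, smul_eq_mul] at this
    rw [← hQQ' z hz]
    simp only [Pi.smul_apply, smul_eq_mul]
    linarith
  set R : E (n + 1) → ℝ := F + (-1 : ℝ) • Q with hRdef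
  have hR : IsH R := hF.add (hQH.smul _)
  have hR0 := eq_zero_of_orthogonal hR (recursion hR hc (fun G hG => ?_) fun q hq => ?_)
  · refine ⟨Q, hQ, fun z hz => ?_⟩
    have := hR0 z hz
    simp only [hRdef, Pi.add_apply, Pi.smul_apply, smul_eq_mul] at this
    linarith
  · have hJ : ∀ K : E (n + 1) → ℝ, ContinuousOn K {0}ᶜ → J R K = J F K - J Q K := by
      intro K hK
      rw [hRdef, J_comm, J_add hF.cont (hQH.smul _).cont hK, J_smul, J_comm K F, J_comm K Q]
      ring
    have hlc : ContinuousOn (lapN G) {0}ᶜ := by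
      intro z hz
      have hz' : z ≠ 0 := hz
      have h1 : ContDiffAt ℝ ∞ (fun x => fderiv ℝ (fun y => fderiv ℝ G y) x) z :=
        ((hG.contDiffAt hz').fderiv_right (m := ∞) (by simp)).fderiv_right (m := ∞) (by simp)
      have h2 : ContDiffAt ℝ ∞ (fun z => ‖z‖ ^ 2 * lap G z) z := by
        unfold lap traceD2 D2
        exact (contDiff_norm_sq ℝ).contDiffAt.mul (ContDiffAt.sum fun i _ =>
          (h1.clm_apply contDiffAt_const).clm_apply contDiffAt_const)
      exact h2.continuousAt.continuousWithinAt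
    rw [hJ _ hlc, hJ _ hG.cont, J_lapN_symm hG hF, J_lapN_symm hG hQH,
      J_congr (F' := G) (fun z _ => rfl) hlF, J_congr (F := G) (F' := G) (fun z _ => rfl) hlQ,
      J_smul, J_smul, J_comm G F, J_comm G Q]
    ring
  · rw [hRdef, J_add_left hF (hQH.smul _) (isH_of_mem hq), J_smul_left, hproj q hq]
    ring

/-- There are no negative eigenvalues. -/
theorem eig_neg {F : E (n + 1) → ℝ} (hF : IsH F) {c : ℝ} (hc : c < 0)
    (h : ∀ p, ‖p‖ = 1 → lap F p = -c * F p) : ∀ z, z ≠ 0 → F z = 0 := by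
  apply hF.zero_of_J
  have h1 := J_lapN_self hF
  rw [J_congr (F' := F) (G' := -c • F) (fun z _ => rfl) (fun z hz => by
    rw [lapN_eig hF h hz]; rfl), J_smul] at h1
  have h2 := J_self_nonneg F
  nlinarith

/-- Eigenfunctions with different eigenvalues are orthogonal. -/
theorem eig_orth {F G : E (n + 1) → ℝ} (hF : IsH F) (hG : IsH G) {c d : ℝ} (hcd : c ≠ d)
    (h : ∀ p, ‖p‖ = 1 → lap F p = -c * F p) (h' : ∀ p, ‖p‖ = 1 → lap G p = -d * G p) :
    J F G = 0 := by
  have h1 := J_lapN_symm hF hG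
  rw [J_congr (F' := G) (G' := -c • F) (fun z _ => rfl) (fun z hz => by
    rw [lapN_eig hF h hz]; rfl), J_congr (F := F) (F' := F) (G' := -d • G) (fun z _ => rfl)
    (fun z hz => by rw [lapN_eig hG h' hz]; rfl), J_smul, J_smul, J_comm G F] at h1
  have h2 : (c - d) * J F G = 0 := by linarith
  rcases mul_eq_zero.mp h2 with h3 | h3
  · exact absurd (sub_eq_zero.mp h3) hcd
  · exact h3

end Pool.Agent.V11193.Ver
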