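import Pool.Agent.H85R3.MinDefs

/-! Eigenfunctions and the eigenvalues, counted with multiplicity, of the Laplace-Beltrami operator
of a closed submanifold of Euclidean space. -/

set_option autoImplicit false

open Pool.Agent.H85R3.Minimal
open scoped ContDiff

namespace Pool.Agent.V11193.Ver

/-- `f` restricts to a smooth function on the `d`-dimensional submanifold `M ⊆ ℝ^N` that satisfies
`Δ f = -μ f` on `M`. Only the values of `f` on `M` matter. -/
structure IsEigenfunction {N : ℕ} (d : ℕ) (M : Set (E N)) (μ : ℝ) (f : E N → ℝ) : Prop where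
  smooth : ∀ (U : Set (E d)) (φ : E d → E N), IsLocalParam M U φ → ContDiffOn ℝ ∞ (f ∘ φ) U
  equation : ∀ (U : Set (E d)) (φ : E d → E N), IsLocalParam M U φ → ∀ x ∈ U,
    ∀ u : Fin d → E d, IsFrame φ x u → laplaceBeltrami φ (f ∘ φ) x u = -(μ * f (φ x))

/-- The space of functions on `M` that is spanned by the eigenfunctions with eigenvalue at most
`μ`. Its dimension is the number of eigenvalues at most `μ`, counted with multiplicity. -/
noncomputable def specSpace {N : ℕ} (d : ℕ) (M : Set (E N)) (μ : ℝ) : Submodule ℝ (M → ℝ) :=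
  Submodule.span ℝ {g | ∃ ν ≤ μ, ∃ f : E N → ℝ, IsEigenfunction d M ν f ∧ ∀ p : M, g p = f p}

/-- The `j`-th eigenvalue `λ_j` of the Laplace-Beltrami operator of `M`, counted with multiplicity
(`j = 0, 1, 2, …`): the smallest `μ` for which there are at least `j + 1` eigenvalues at most `μ`,
counted with multiplicity. -/
noncomputable def eigenvalue {N : ℕ} (d : ℕ) (M : Set (E N)) (j : ℕ) : ℝ :=
  sInf {μ : ℝ | (j : Cardinal) < Module.rank ℝ (specSpace d M μ)}

end Pool.Agent.V11193.Ver
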