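import Pool.Agent.V11193.Ver.Spec

set_option autoImplicit false

open Pool.Agent.H85R3.Minimal

namespace Pool.Agent.V11193.Ver

variable {n : ℕ}

theorem bb_eq (hn : n ≠ 0) : bb n = 2 * n * (n + 3) / (n + 1) := by
  rw [bb, sc_inv hn]
  field_simp
  ring

theorem final {n : ℕ} (hn6 : 6 ≤ n) :
    (n + 3 : ℝ) * eigenvalue n (RPn n) ((n + 2).choose 2 - 1) +
      eigenvalue n (RPn n) ((n + 2).choose 2 - 1) ^ 2 /
        eigenvalue n (RPn n) ((n + 2).choose 2 - 1 + 1) + (n : ℝ) ^ 2 <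
      ∑ k ∈ Finset.Icc 1 n, eigenvalue n (RPn n) ((n + 2).choose 2 - 1 + k) := by
  have hn : n ≠ 0 := by omega
  have hD : 1 ≤ (n + 2).choose 2 := Nat.choose_pos (by omega)
  have h6 : (6 : ℝ) ≤ n := by exact_mod_cast hn6
  set a := eigenvalue n (RPn n) ((n + 2).choose 2 - 1) with ha
  have ha1 : a ≤ n := eigenvalue_le hn (by omega)
  have ha0 : 0 ≤ a := eigenvalue_nonneg hn _
  set b := eigenvalue n (RPn n) ((n + 2).choose 2 - 1 + 1) with hb
  have hb1 : bb n ≤ b := eigenvalue_ge hn (by omega)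
  have hbb : bb n = 2 * n * (n + 3) / (n + 1) := bb_eq hn
  have hb0 : 0 < bb n := by rw [hbb]; positivity
  have hsum : (n : ℝ) * bb n ≤
      ∑ k ∈ Finset.Icc 1 n, eigenvalue n (RPn n) ((n + 2).choose 2 - 1 + k) := by
    calc (n : ℝ) * bb n = ∑ k ∈ Finset.Icc 1 n, bb n := by simp
      _ ≤ _ := Finset.sum_le_sum fun k hk => eigenvalue_ge hn (by
        have := (Finset.mem_Icc.mp hk).1
        omega)
  have h1 : a ^ 2 / b ≤ (n : ℝ) ^ 2 / bb n := by
    apply div_le_div₀ (by positivity) (by nlinarith) hb0 hb1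
  have h2 : (n + 3 : ℝ) * a ≤ (n + 3) * n := mul_le_mul_of_nonneg_left ha1 (by positivity)
  have h3 : (n + 3 : ℝ) * n + (n : ℝ) ^ 2 / bb n + (n : ℝ) ^ 2 < n * bb n := by
    rw [hbb]
    have h4 : (n : ℝ) * (2 * n * (n + 3) / (n + 1)) -
        ((n + 3 : ℝ) * n + (n : ℝ) ^ 2 / (2 * n * (n + 3) / (n + 1)) + (n : ℝ) ^ 2) =
        n * (n ^ 2 - 2 * n - 19) / (2 * (n + 3) * (n + 1)) := by
      field_simp
      ring
    have h5 : 0 < (n : ℝ) * (n ^ 2 - 2 * n - 19) / (2 * (n + 3) * (n + 1)) := by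
      have : (0 : ℝ) < n ^ 2 - 2 * n - 19 := by nlinarith
      positivity
    linarith
  linarith

theorem main (n : ℕ) (hn6 : 6 ≤ n) :
    ∃ (N : ℕ) (M : Set (E N)), n + 2 ≤ N ∧ IsClosedSubmanifold n M ∧ IsMinimalInSphere n M ∧
      (n + 3 : ℝ) * eigenvalue n M (n * (n + 3) / 2) +
        eigenvalue n M (n * (n + 3) / 2) ^ 2 / eigenvalue n M (n * (n + 3) / 2 + 1) + (n : ℝ) ^ 2 <
      ∑ k ∈ Finset.Icc 1 n, eigenvalue n M (n * (n + 3) / 2 + k) := by
  have hn : n ≠ 0 := by omega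
  refine ⟨(n + 1) * (n + 1), RPn n, by nlinarith, isClosedSubmanifold hn, isMinimal hn, ?_⟩
  have h1 : (n + 2).choose 2 - 1 = n * (n + 3) / 2 := by
    rw [Nat.choose_two_right]
    have h2 : (n + 2) * (n + 2 - 1) = n * (n + 3) + 2 := by
      rw [show n + 2 - 1 = n + 1 by omega]
      ring
    rw [h2]
    omega
  rw [← h1]
  exact final hn6

end Pool.Agent.V11193.Ver
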