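import Pool.Agent.V11193.Ver.Geo
import Pool.Agent.V11193.Ver.Defs

/-! Eigenfunctions of `ℝPⁿ` and homogeneous functions. -/

set_option autoImplicit false

open Pool.Agent.H85R3.Minimal
open scoped ContDiff RealInnerProductSpace Topology

namespace Pool.Agent.V11193.Ver

variable {n : ℕ}

theorem ne_zero_of_norm {p : E (n + 1)} (hp : ‖p‖ = 1) : p ≠ 0 := by
  rintro rfl; simp at hp

theorem eigen_to_H (hn : n ≠ 0) {ν : ℝ} {f : E ((n + 1) * (n + 1)) → ℝ}
    (hf : IsEigenfunction n (RPn n) ν f) :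
    IsH (f ∘ V) ∧ ∀ p : E (n + 1), ‖p‖ = 1 → lap (f ∘ V) p = -(sc n * ν) * (f ∘ V) p := by
  have hH := isH_of_smooth hn hf.smooth
  refine ⟨hH, fun p hp => ?_⟩
  obtain ⟨B, hB⟩ := exists_basis hp
  have h := hf.equation _ _ (isLocalParam B hn) 0 trivial _ (isFrame_fr B hn)
  rw [laplace_center hn B hH, par_zero, hB] at h
  have hs := (sc_pos hn).ne'
  simp only [Function.comp] at h ⊢
  field_simp at h
  linarith

theorem eigen_of_H (hn : n ≠ 0) {ν : ℝ} {f : E ((n + 1) * (n + 1)) → ℝ} (hH : IsH (f ∘ V))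
    (hl : ∀ p : E (n + 1), ‖p‖ = 1 → lap (f ∘ V) p = -(sc n * ν) * (f ∘ V) p) :
    IsEigenfunction n (RPn n) ν f := by
  have hsm : ∀ B : OrthonormalBasis (Fin (n + 1)) ℝ (E (n + 1)), ContDiff ℝ ∞ (f ∘ par B) := by
    intro B
    have h := hH.smooth.comp (contDiff_aff B).contDiffOn (s := Set.univ)
      fun y _ => aff_ne_zero B y
    exact contDiffOn_univ.mp h
  constructor
  · intro U φ hφ x hx
    obtain ⟨z, hz, hz'⟩ := hφ.mapsTo hx
    obtain ⟨B, -, hB⟩ := V_eq_par hz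
    obtain ⟨τ, hτ, hτ0, hev⟩ := exists_transition hφ (isLocalParam B hn) hx
      (Set.mem_univ (0 : E n)) (hz'.symm.trans hB)
    have h1 : ContDiffAt ℝ ∞ (fun w => (f ∘ par B) (τ w)) x := (hsm B).contDiffAt.comp x hτ
    refine (h1.congr_of_eventuallyEq ?_).contDiffWithinAt
    filter_upwards [hev] with w hw
    simp only [Function.comp]
    rw [hw]
  · intro U φ hφ x hx u hu
    obtain ⟨z, hz, hz'⟩ := hφ.mapsTo hx
    obtain ⟨B, -, hB⟩ := V_eq_par hz
    have hxB : φ x = par B 0 := hz'.symm.trans hB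
    rw [laplace_transfer hφ (isLocalParam B hn) hx (Set.mem_univ (0 : E n)) hxB
      hu (isFrame_fr B hn) (hsm B).contDiffAt, laplace_center hn B hH, hl (B 0) (B.norm_eq_one 0),
      hxB, par_zero]
    have hs := (sc_pos hn).ne'
    simp only [Function.comp]
    field_simp

theorem V_injective (hn : n ≠ 0) {z w : E (n + 1)} (hz : z ≠ 0) (hw : w ≠ 0) (h : V z = V w) :
    ∃ t : ℝ, t ≠ 0 ∧ w = t • z := by
  obtain ⟨B, hzB, hB⟩ := V_eq_par hz
  have hz1 : ‖z‖ ≠ 0 := by positivity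
  have hw0 : ⟪w, B 0⟫ ≠ 0 := by
    intro h0
    have h1 := den_V B hn w
    rw [← h, hB, h0, mul_zero, mul_zero] at h1
    exact den_par B hn 0 h1
  have h1 : inv B (V w) = 0 := by rw [← h, hB, inv_par B hn]
  have h2 : inv B (V w) = WithLp.toLp 2 fun i => ⟪w, B i.succ⟫ / ⟪w, B 0⟫ := by
    ext i
    rw [inv_V B hn hw hw0]
  have h3 := decomp B w hw0
  rw [← h2, h1, aff_zero] at h3
  refine ⟨⟪w, B 0⟫ * ‖z‖⁻¹, mul_ne_zero hw0 (inv_ne_zero hz1), ?_⟩
  have h4 : ⟪w, B 0⟫ • B 0 = w := by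
    generalize ⟪w, B 0⟫ = a at h3 hw0
    rw [h3, smul_smul, mul_inv_cancel₀ hw0, one_smul]
  have h5 : ‖z‖⁻¹ • z = B 0 := by
    generalize ‖z‖ = a at hzB hz1
    rw [hzB, smul_smul, inv_mul_cancel₀ hz1, one_smul]
  rw [mul_smul, h5, h4]

theorem IsH.factor (hn : n ≠ 0) {F : E (n + 1) → ℝ} (hF : IsH F) :
    ∃ f : E ((n + 1) * (n + 1)) → ℝ, ∀ z : E (n + 1), z ≠ 0 → f (V z) = F z := by
  classical
  refine ⟨fun Q => if h : ∃ z : E (n + 1), z ≠ 0 ∧ V z = Q then F h.choose else 0, ?_⟩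
  intro z hz
  have h : ∃ w : E (n + 1), w ≠ 0 ∧ V w = V z := ⟨z, hz, rfl⟩
  simp only []
  rw [dif_pos h]
  obtain ⟨t, ht, hzt⟩ := V_injective hn h.choose_spec.1 hz h.choose_spec.2
  conv_rhs => rw [hzt]
  rw [hF.hom t ht]

theorem IsH.congr {F G : E (n + 1) → ℝ} (hF : IsH F) (h : ∀ z, z ≠ 0 → G z = F z) : IsH G where
  smooth := hF.smooth.congr fun z hz => h z hz
  hom := by
    intro t ht z
    by_cases hz : z = 0
    · rw [hz, smul_zero]
    · rw [h z hz, h _ (smul_ne_zero ht hz), hF.hom t ht]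

theorem D2_congr {F G : E (n + 1) → ℝ} {z : E (n + 1)} (h : F =ᶠ[𝓝 z] G) : D2 F z = D2 G z := by
  unfold D2
  exact Filter.EventuallyEq.fderiv_eq (h.eventuallyEq_nhds.mono fun w hw => hw.fderiv_eq)

theorem lap_congr {F G : E (n + 1) → ℝ} {z : E (n + 1)} (h : F =ᶠ[𝓝 z] G) : lap F z = lap G z := by
  unfold lap traceD2
  rw [D2_congr h]

theorem lap_congr' {F G : E (n + 1) → ℝ} (h : ∀ z, z ≠ 0 → G z = F z) {z : E (n + 1)}
    (hz : z ≠ 0) : lap G z = lap F z :=
  lap_congr (Filter.eventually_of_mem (isOpen_compl_singleton.mem_nhds hz) fun w hw => h w hw)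

/-! ### Scaling -/

theorem D2_scale {F : E (n + 1) → ℝ} {t c : ℝ} (hF : ∀ z, F (t • z) = c * F z)
    {z : E (n + 1)} (h : ContDiffAt ℝ 2 F (t • z)) (h' : ContDiffAt ℝ 2 F z) (u v : E (n + 1)) :
    c * D2 F z u v = t ^ 2 * D2 F (t • z) u v := by
  have h1 := (D2_affine (t • ContinuousLinearMap.id ℝ (E (n + 1))) 0 z (F := F) (by simpa using h)).2
    u v
  simp only [_root_.smul_apply, ContinuousLinearMap.id_apply, zero_add, map_smul, smul_eq_mul] at h1
  have h2 : (fun y => F (t • y)) = fun y => c * F y := funext hF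
  rw [h2] at h1
  have h3 : D2 (fun y => c * F y) z = c • D2 F z := by
    unfold D2
    have e1 : ∀ᶠ w in 𝓝 z, ContDiffAt ℝ 2 F w := h'.eventually (by simp)
    have e2 : (fun y => fderiv ℝ (fun y => c * F y) y) =ᶠ[𝓝 z] fun y => c • fderiv ℝ F y := by
      filter_upwards [e1] with w hw
      exact fderiv_const_mul (hw.differentiableAt (by simp)) c
    have : ContDiffAt ℝ 1 (fun z => fderiv ℝ F z) z := h'.fderiv_right (m := 1) (by norm_num)
    rw [e2.fderiv_eq]
    exact fderiv_fun_const_smul (this.differentiableAt (by simp)) c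
  rw [h3] at h1
  simp only [_root_.smul_apply, smul_eq_mul] at h1
  rw [h1]
  ring

theorem IsH.lap_smul {F : E (n + 1) → ℝ} (hF : IsH F) {z : E (n + 1)} (hz : z ≠ 0) {t : ℝ}
    (ht : t ≠ 0) : lap F z = t ^ 2 * lap F (t • z) := by
  unfold lap traceD2
  rw [Finset.mul_sum]
  refine Finset.sum_congr rfl fun i _ => ?_
  have := D2_scale (c := 1) (fun z => by rw [hF.hom t ht, one_mul])
    ((hF.contDiffAt (smul_ne_zero ht hz)).of_le le_two) ((hF.contDiffAt hz).of_le le_two)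
    (EuclideanSpace.single i 1) (EuclideanSpace.single i 1)
  rw [one_mul] at this
  exact this

theorem IsH.lap_norm {F : E (n + 1) → ℝ} (hF : IsH F) {z : E (n + 1)} (hz : z ≠ 0) :
    ‖z‖ ^ 2 * lap F z = lap F (‖z‖⁻¹ • z) := by
  have h0 : ‖z‖ ≠ 0 := by positivity
  have h := hF.lap_smul hz (inv_ne_zero h0)
  rw [h]
  field_simp

/-! ### Homogeneous smooth functions -/

/-- A smooth function on `ℝ^{n+1}` that is homogeneous of degree `k` (a homogeneous polynomial). -/
structure IsP (k : ℕ) (P : E (n + 1) → ℝ) : Prop where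
  smooth : ContDiff ℝ ∞ P
  hom : ∀ t : ℝ, t ≠ 0 → ∀ z, P (t • z) = t ^ k * P z

/-- The corresponding function that is homogeneous of degree `0`. -/
noncomputable def quo (m : ℕ) (P : E (n + 1) → ℝ) (z : E (n + 1)) : ℝ := P z / (‖z‖ ^ 2) ^ m

theorem IsP.isH {m : ℕ} {P : E (n + 1) → ℝ} (hP : IsP (2 * m) P) : IsH (quo m P) where
  smooth := by
    intro z hz
    have h0 : z ≠ 0 := hz
    have h1 : ContDiffAt ℝ ∞ (fun z : E (n + 1) => P z / (‖z‖ ^ 2) ^ m) z :=
      hP.smooth.contDiffAt.div ((contDiff_norm_sq ℝ).contDiffAt.pow m) (by positivity)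
    exact h1.contDiffWithinAt
  hom := by
    intro t ht z
    unfold quo
    rw [hP.hom t ht, norm_smul, mul_pow, mul_pow, Real.norm_eq_abs, sq_abs, pow_mul,
      mul_div_mul_left _ _ (pow_ne_zero _ (pow_ne_zero _ ht))]

theorem IsP.lap {k : ℕ} {P : E (n + 1) → ℝ} (hP : IsP (k + 2) P) : IsP k (lap P) where
  smooth := by
    unfold Ver.lap traceD2 D2
    have h1 : ContDiff ℝ ∞ (fun y => fderiv ℝ P y) := hP.smooth.fderiv_right (by simp)
    have h2 : ContDiff ℝ ∞ (fun x => fderiv ℝ (fun y => fderiv ℝ P y) x) :=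
      h1.fderiv_right (by simp)
    exact ContDiff.sum fun i _ => (h2.clm_apply contDiff_const).clm_apply contDiff_const
  hom := by
    intro t ht z
    unfold Ver.lap traceD2
    rw [Finset.mul_sum]
    refine Finset.sum_congr rfl fun i _ => ?_
    have := D2_scale (fun z => hP.hom t ht z) (hP.smooth.contDiffAt.of_le le_two)
      (hP.smooth.contDiffAt.of_le le_two) (z := z)
      (EuclideanSpace.single i 1) (EuclideanSpace.single i 1)
    have h2 : t ^ 2 ≠ 0 := pow_ne_zero _ ht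
    apply mul_left_cancel₀ h2
    rw [← this]
    ring

theorem IsP.mul {k l : ℕ} {P Q : E (n + 1) → ℝ} (hP : IsP k P) (hQ : IsP l Q) :
    IsP (k + l) fun z => P z * Q z where
  smooth := hP.smooth.mul hQ.smooth
  hom := by
    intro t ht z
    rw [hP.hom t ht, hQ.hom t ht]
    ring

theorem IsP.radial {k : ℕ} {P : E (n + 1) → ℝ} (hP : IsP k P) (p : E (n + 1)) :
    D2 P p p p = k * (k - 1) * P p := by
  have h1 : ∀ᶠ t : ℝ in 𝓝 0, -1 < t := eventually_gt_nhds (by norm_num)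
  refine (D2_curve (c₁ := fun s => k * (1 + s) ^ (k - 1) * P p)
    (hP.smooth.contDiffAt.of_le le_two) ?_ ?_).2
  · filter_upwards [h1] with t ht
    have h2 : HasDerivAt (fun s : ℝ => (1 + s) ^ k * P p) (k * (1 + t) ^ (k - 1) * P p) t := by
      have := (((hasDerivAt_id t).const_add 1).pow k).mul_const (P p)
      simpa using this
    refine h2.congr_of_eventuallyEq ?_
    filter_upwards [eventually_gt_nhds ht] with s hs
    have : p + s • p = (1 + s) • p := by module
    rw [this, hP.hom _ (by linarith)]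
  · have := ((((hasDerivAt_id (0 : ℝ)).const_add 1).pow (k - 1)).const_mul (k : ℝ)).mul_const (P p)
    refine this.congr_deriv ?_
    rcases k with _ | k
    · simp
    · simp

theorem IsP.lap_quo {m : ℕ} {P : E (n + 1) → ℝ} (hP : IsP (2 * m) P) {p : E (n + 1)}
    (hp : ‖p‖ = 1) :
    Ver.lap (quo m P) p = Ver.lap P p - 2 * m * (2 * m + n - 1) * P p := by
  obtain ⟨B, hB⟩ := exists_basis hp
  rw [← hB, hP.isH.lap_split B, lap_eq P (B 0) B, Fin.sum_univ_succ, hP.radial]
  have h1 : ∀ i : Fin n, D2 (quo m P) (B 0) (B i.succ) (B i.succ) =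
      D2 P (B 0) (B i.succ) (B i.succ) - 2 * m * P (B 0) := by
    intro i
    set b := B i.succ with hb
    have hnorm : ∀ s : ℝ, ‖B 0 + s • b‖ ^ 2 = 1 + s ^ 2 := by
      intro s
      rw [norm_add_sq_real, inner_smul_right, norm_smul, mul_pow, hb, B.norm_eq_one, B.norm_eq_one,
        B.inner_eq_ite, if_neg (Fin.succ_ne_zero i).symm, Real.norm_eq_abs, sq_abs]
      ring
    have hline : ∀ t : ℝ, HasDerivAt (fun s : ℝ => B 0 + s • b) b t := fun t => by
      simpa using ((hasDerivAt_id t).smul_const b).const_add (B 0)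
    have hPd : ∀ t : ℝ, HasDerivAt (fun s : ℝ => P (B 0 + s • b))
        (fderiv ℝ P (B 0 + t • b) b) t := fun t =>
      ((hP.smooth.differentiable (by simp)).differentiableAt.hasFDerivAt).comp_hasDerivAt t
        (hline t)
    have hPd2 : HasDerivAt (fun s : ℝ => fderiv ℝ P (B 0 + s • b) b) (D2 P (B 0) b b) 0 := by
      have hd : ContDiff ℝ ∞ (fun z => fderiv ℝ P z) := hP.smooth.fderiv_right (by simp)
      have h4 : HasFDerivAt (fun z => fderiv ℝ P z) (D2 P (B 0)) (B 0 + (0 : ℝ) • b) := by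
        rw [zero_smul, add_zero]
        exact (hd.differentiable (by simp)).differentiableAt.hasFDerivAt
      have h5 := h4.comp_hasDerivAt (0 : ℝ) (hline 0)
      have h6 := h5.clm_apply (hasDerivAt_const (0 : ℝ) b)
      simpa using h6
    have hden : ∀ t : ℝ, HasDerivAt (fun s : ℝ => ((1 + s ^ 2) ^ m)⁻¹)
        (-(m * (2 * t)) * ((1 + t ^ 2) ^ (m + 1))⁻¹) t := by
      intro t
      have h0 : (1 + t ^ 2) ≠ 0 := by positivity
      have h2 := ((((hasDerivAt_id t).pow 2).const_add 1).pow m).inv (pow_ne_zero m h0)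
      simp only [id] at h2
      refine h2.congr_deriv ?_
      rcases m with _ | m
      · simp
      · simp only [Nat.add_sub_cancel, Nat.cast_add, Nat.cast_one, Nat.cast_ofNat, mul_one]
        field_simp
        norm_num
        ring
    have hc1 : ∀ t : ℝ, HasDerivAt (fun s : ℝ => quo m P (B 0 + s • b))
        (fderiv ℝ P (B 0 + t • b) b * ((1 + t ^ 2) ^ m)⁻¹ +
          P (B 0 + t • b) * (-(m * (2 * t)) * ((1 + t ^ 2) ^ (m + 1))⁻¹)) t := by
      intro t
      refine ((hPd t).mul (hden t)).congr_of_eventuallyEq (Filter.Eventually.of_forall fun s => ?_)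
      simp only [quo, hnorm, div_eq_mul_inv, Pi.mul_apply]
    have hden2 : HasDerivAt (fun s : ℝ => -(m * (2 * s)) * ((1 + s ^ 2) ^ (m + 1))⁻¹)
        (-(2 * m)) 0 := by
      have h2 := (((((hasDerivAt_id (0 : ℝ)).pow 2).const_add 1).pow (m + 1)).inv (by norm_num))
      have h3 := ((((hasDerivAt_id (0 : ℝ)).const_mul 2).const_mul (m : ℝ)).neg).mul h2
      simp only [id] at h3
      refine h3.congr_deriv ?_
      norm_num
      ring
    have h2 := (D2_curve (c₁ := fun t => fderiv ℝ P (B 0 + t • b) b * ((1 + t ^ 2) ^ m)⁻¹ +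
          P (B 0 + t • b) * (-(m * (2 * t)) * ((1 + t ^ 2) ^ (m + 1))⁻¹))
      ((hP.isH.contDiffAt (B.orthonormal.ne_zero 0)).of_le le_two)
      (Filter.Eventually.of_forall hc1) ((hPd2.mul (hden 0)).add ((hPd 0).mul hden2))).2
    rw [h2]
    simp
    ring
  simp_rw [h1]
  rw [Finset.sum_sub_distrib, Finset.sum_const, Finset.card_univ, Fintype.card_fin, nsmul_eq_mul]
  push_cast
  ring

/-- Harmonic homogeneous polynomials of even degree give eigenfunctions of `ℝPⁿ`. -/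
theorem eigen_of_P (hn : n ≠ 0) {m : ℕ} {P : E (n + 1) → ℝ} (hP : IsP (2 * m) P)
    (hh : ∀ z, Ver.lap P z = 0) {f : E ((n + 1) * (n + 1)) → ℝ}
    (hf : ∀ z : E (n + 1), z ≠ 0 → f (V z) = quo m P z) :
    IsEigenfunction n (RPn n) ((sc n)⁻¹ * (2 * m * (2 * m + n - 1))) f := by
  have hs := (sc_pos hn).ne'
  refine eigen_of_H hn (hP.isH.congr hf) fun p hp => ?_
  rw [lap_congr' (G := f ∘ V) (F := quo m P) hf (ne_zero_of_norm hp), hP.lap_quo hp, hh]
  have h1 : (f ∘ V) p = P p := by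
    rw [Function.comp, hf p (ne_zero_of_norm hp), quo, hp]
    simp
  rw [h1]
  field_simp
  ring

end Pool.Agent.V11193.Ver
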