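import Pool.Agent.V11193.Ver.Ten

/-! `ℝPⁿ` is a closed minimal submanifold of the unit sphere; functions on `ℝPⁿ` as homogeneous
functions of degree `0`, and the Laplace-Beltrami operator on them. -/

set_option autoImplicit false

open Pool.Agent.H85R3.Minimal
open scoped ContDiff RealInnerProductSpace Topology

namespace Pool.Agent.V11193.Ver

variable {n : ℕ}

theorem exists_basis {p : E (n + 1)} (hp : ‖p‖ = 1) :
    ∃ B : OrthonormalBasis (Fin (n + 1)) ℝ (E (n + 1)), B 0 = p := by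
  have h : Orthonormal ℝ (Set.domRestrict {(0 : Fin (n + 1))} (fun _ => p)) := by
    constructor
    · intro i; exact hp
    · intro i j hij
      exact absurd (Subsingleton.elim i j) hij
  obtain ⟨B, hB⟩ := h.exists_orthonormalBasis_extension_of_card_eq (by simp)
  exact ⟨B, hB 0 (by simp)⟩

theorem aff_zero (B : OrthonormalBasis (Fin (n + 1)) ℝ (E (n + 1))) : aff B 0 = B 0 := by
  simp [aff]

theorem par_zero (B : OrthonormalBasis (Fin (n + 1)) ℝ (E (n + 1))) : par B 0 = V (B 0) := by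
  rw [par, aff_zero]

theorem V_eq_par {z : E (n + 1)} (hz : z ≠ 0) :
    ∃ B : OrthonormalBasis (Fin (n + 1)) ℝ (E (n + 1)), z = ‖z‖ • B 0 ∧ V z = par B 0 := by
  have h0 : ‖z‖ ≠ 0 := by positivity
  obtain ⟨B, hB⟩ := exists_basis (p := ‖z‖⁻¹ • z) (by rw [norm_smul, norm_inv, norm_norm]; field_simp)
  refine ⟨B, ?_, ?_⟩
  · rw [hB, smul_smul, mul_inv_cancel₀ h0, one_smul]
  · rw [par_zero, hB, V_smul (inv_ne_zero h0)]

theorem par_inv (hn : n ≠ 0) (B : OrthonormalBasis (Fin (n + 1)) ℝ (E (n + 1))) {z : E (n + 1)}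
    (hz : z ≠ 0) (hz0 : ⟪z, B 0⟫ ≠ 0) : par B (inv B (V z)) = V z := by
  have h1 : inv B (V z) = WithLp.toLp 2 fun i => ⟪z, B i.succ⟫ / ⟪z, B 0⟫ := by
    ext i
    rw [inv_V B hn hz hz0]
  rw [par, h1, decomp B z hz0, V_smul (inv_ne_zero hz0)]

theorem isClosedSubmanifold (hn : n ≠ 0) : IsClosedSubmanifold n (RPn n) where
  isCompact := by
    have h : RPn n = V '' (Metric.sphere (0 : E (n + 1)) 1) := by
      ext Q
      constructor
      · rintro ⟨z, hz, rfl⟩
        obtain ⟨B, -, hB⟩ := V_eq_par hz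
        exact ⟨B 0, by simp, by rw [hB, par_zero]⟩
      · rintro ⟨z, hz, rfl⟩
        refine ⟨z, ?_, rfl⟩
        intro h0
        have h0' : z = 0 := h0
        rw [h0'] at hz
        simp at hz
    rw [h]
    refine (isCompact_sphere _ _).image_of_continuousOn (contDiffOn_V.continuousOn.mono ?_)
    intro z hz h0
    have h0' : z = 0 := h0
    rw [h0'] at hz
    simp at hz
  isConnected := by
    refine IsConnected.image ?_ _ contDiffOn_V.continuousOn
    apply isConnected_compl_singleton_of_one_lt_rank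
    rw [← Module.finrank_eq_rank, finrank_euclideanSpace_fin]
    exact_mod_cast (by omega : 1 < n + 1)
  exists_param := by
    rintro Q ⟨z, hz, rfl⟩
    obtain ⟨B, -, hB⟩ := V_eq_par hz
    exact ⟨Set.univ, par B, isLocalParam B hn, 0, trivial, hB.symm⟩

theorem isMinimal (hn : n ≠ 0) : IsMinimalInSphere n (RPn n) := by
  refine ⟨?_, ?_⟩
  · rintro Q ⟨z, hz, rfl⟩
    simpa using norm_V hn hz
  · intro U φ hφ x hx u hu
    obtain ⟨z, hz, hz'⟩ := hφ.mapsTo hx
    obtain ⟨B, -, hB⟩ := V_eq_par hz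
    refine minimal_transfer hφ (isLocalParam B hn) hx (Set.mem_univ (0 : E n)) (hz'.symm.trans hB)
      hu (isFrame_fr B hn) ?_
    rw [traceD2_par B hn]
    exact Submodule.smul_mem _ _ (Submodule.subset_span (Or.inr rfl))

/-! ### Homogeneous functions of degree `0` -/

/-- A smooth function on `ℝ^{n+1} ∖ {0}` that is constant on lines. -/
structure IsH (F : E (n + 1) → ℝ) : Prop where
  smooth : ContDiffOn ℝ ∞ F {0}ᶜ
  hom : ∀ t : ℝ, t ≠ 0 → ∀ z, F (t • z) = F z

theorem IsH.contDiffAt {F : E (n + 1) → ℝ} (hF : IsH F) {z : E (n + 1)} (hz : z ≠ 0) :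
    ContDiffAt ℝ ∞ F z := hF.smooth.contDiffAt (isOpen_compl_singleton.mem_nhds hz)

/-- The Laplace operator of `ℝ^{n+1}`. -/
noncomputable def lap (F : E (n + 1) → ℝ) (z : E (n + 1)) : ℝ :=
  traceD2 F z fun i => EuclideanSpace.single i 1

theorem lap_eq (F : E (n + 1) → ℝ) (z : E (n + 1))
    (B : OrthonormalBasis (Fin (n + 1)) ℝ (E (n + 1))) : lap F z = ∑ i, D2 F z (B i) (B i) := by
  have hfr : ∀ B : OrthonormalBasis (Fin (n + 1)) ℝ (E (n + 1)),
      IsFrame (fun z : E (n + 1) => z) 0 B := by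
    intro B
    unfold IsFrame
    have : fderiv ℝ (fun z : E (n + 1) => z) 0 = ContinuousLinearMap.id ℝ _ := fderiv_fun_id
    rw [this]
    exact B.orthonormal
  have h := traceD2_frame (hfr (EuclideanSpace.basisFun (Fin (n + 1)) ℝ)) (hfr B) F z
  unfold lap
  unfold traceD2 at h ⊢
  simpa using h

/-- Second derivatives are computed along straight lines, local version. -/
theorem D2_curve {d : ℕ} {W : Type*} [NormedAddCommGroup W] [NormedSpace ℝ W] {φ : E d → W}
    {x u : E d} (hφ : ContDiffAt ℝ 2 φ x) {c₁ : ℝ → W} {w : W}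
    (h₁ : ∀ᶠ t : ℝ in 𝓝 0, HasDerivAt (fun s : ℝ => φ (x + s • u)) (c₁ t) t)
    (h₂ : HasDerivAt c₁ w 0) :
    fderiv ℝ φ x u = c₁ 0 ∧ D2 φ x u u = w := by
  have hline : ∀ t : ℝ, HasDerivAt (fun s : ℝ => x + s • u) u t := fun t => by
    simpa using ((hasDerivAt_id t).smul_const u).const_add x
  have e1 : ∀ᶠ z in 𝓝 x, ContDiffAt ℝ 2 φ z := hφ.eventually (by simp)
  have hcont : Filter.Tendsto (fun s : ℝ => x + s • u) (𝓝 0) (𝓝 x) := by
    have := (hline 0).continuousAt.tendsto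
    simpa using this
  have e2 : ∀ᶠ t in 𝓝 (0 : ℝ), c₁ t = fderiv ℝ φ (x + t • u) u := by
    filter_upwards [hcont.eventually e1, h₁] with t ht ht'
    have h3 : HasFDerivAt φ (fderiv ℝ φ (x + t • u)) (x + t • u) :=
      (ht.differentiableAt (by simp)).hasFDerivAt
    exact ht'.unique (h3.comp_hasDerivAt t (hline t))
  have hd1 : DifferentiableAt ℝ (fun z => fderiv ℝ φ z) x := by
    have : ContDiffAt ℝ 1 (fun z => fderiv ℝ φ z) x :=
      hφ.fderiv_right (m := 1) (by norm_num)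
    exact this.differentiableAt (by simp)
  refine ⟨?_, ?_⟩
  · have := e2.self_of_nhds
    simpa using this.symm
  · have h4 : HasFDerivAt (fun z => fderiv ℝ φ z) (D2 φ x) (x + (0 : ℝ) • u) := by
      rw [zero_smul, add_zero]
      exact hd1.hasFDerivAt
    have h5 := h4.comp_hasDerivAt (0 : ℝ) (hline 0)
    have h6 := h5.clm_apply (hasDerivAt_const (0 : ℝ) u)
    have h7 := h6.congr_of_eventuallyEq (f₁ := c₁) (by filter_upwards [e2] with t ht; simpa using ht)
    have h8 := h7.unique h₂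
    simpa using h8

/-- Derivatives of a composition with an affine map. -/
theorem D2_affine {d m : ℕ} {F : E m → ℝ} (A : E d →L[ℝ] E m) (b : E m) (y : E d)
    (hF : ContDiffAt ℝ 2 F (b + A y)) :
    (∀ u, fderiv ℝ (fun y => F (b + A y)) y u = fderiv ℝ F (b + A y) (A u)) ∧
    ∀ u v, D2 (fun y => F (b + A y)) y u v = D2 F (b + A y) (A u) (A v) := by
  have hA : ∀ x, HasFDerivAt (fun y => b + A y) A x := fun x => A.hasFDerivAt.const_add b
  have e1 : ∀ᶠ z in 𝓝 (b + A y), ContDiffAt ℝ 2 F z := hF.eventually (by simp)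
  have e2 : ∀ᶠ x in 𝓝 y, ContDiffAt ℝ 2 F (b + A x) := (hA y).continuousAt.eventually e1
  have key : ∀ᶠ x in 𝓝 y, fderiv ℝ (fun y => F (b + A y)) x = (fderiv ℝ F (b + A x)).comp A := by
    filter_upwards [e2] with x hx
    exact ((hx.differentiableAt (by simp)).hasFDerivAt.comp x (hA x)).fderiv
  refine ⟨fun u => by rw [key.self_of_nhds]; rfl, fun u v => ?_⟩
  have hd1 : DifferentiableAt ℝ (fun z => fderiv ℝ F z) (b + A y) := by
    have : ContDiffAt ℝ 1 (fun z => fderiv ℝ F z) (b + A y) :=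
      hF.fderiv_right (m := 1) (by norm_num)
    exact this.differentiableAt (by simp)
  have h3 : HasFDerivAt (fun x => fderiv ℝ F (b + A x)) ((D2 F (b + A y)).comp A) y :=
    hd1.hasFDerivAt.comp y (hA y)
  have h4 := h3.clm_comp (hasFDerivAt_const A y)
  have h5 := (Filter.EventuallyEq.fderiv_eq key).trans h4.fderiv
  unfold D2 at h5 ⊢
  rw [h5]
  simp

theorem IsH.radial {F : E (n + 1) → ℝ} (hF : IsH F) {z : E (n + 1)} (hz : z ≠ 0) :
    fderiv ℝ F z z = 0 ∧ D2 F z z z = 0 := by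
  refine D2_curve (c₁ := fun _ => 0) ((hF.contDiffAt hz).of_le le_two) ?_ (hasDerivAt_const _ _)
  have h1 : ∀ᶠ t : ℝ in 𝓝 0, -1 < t := eventually_gt_nhds (by norm_num)
  filter_upwards [h1] with t ht
  refine (hasDerivAt_const t (F z)).congr_of_eventuallyEq ?_
  filter_upwards [eventually_gt_nhds ht] with s hs
  have : z + s • z = (1 + s) • z := by module
  rw [this, hF.hom _ (by linarith)]

theorem IsH.lap_split {F : E (n + 1) → ℝ} (hF : IsH F)
    (B : OrthonormalBasis (Fin (n + 1)) ℝ (E (n + 1))) :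
    lap F (B 0) = ∑ i : Fin n, D2 F (B 0) (B i.succ) (B i.succ) := by
  rw [lap_eq F (B 0) B, Fin.sum_univ_succ, (hF.radial (B.orthonormal.ne_zero 0)).2, zero_add]

theorem isH_of_smooth (hn : n ≠ 0) {f : E ((n + 1) * (n + 1)) → ℝ}
    (hf : ∀ (U : Set (E n)) (φ : E n → E ((n + 1) * (n + 1))), IsLocalParam (RPn n) U φ →
      ContDiffOn ℝ ∞ (f ∘ φ) U) : IsH (f ∘ V) where
  smooth := by
    intro z hz
    obtain ⟨B, hzB, -⟩ := V_eq_par hz
    have h0 : ‖z‖ ≠ 0 := by
      have : z ≠ 0 := hz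
      positivity
    have hzz : ⟪z, B 0⟫ ≠ 0 := by
      rw [hzB, inner_smul_left, B.inner_eq_one]
      simpa using h0
    have h1 : ContDiffAt ℝ ∞ (fun w => inv B (V w)) z := by
      have h2 : ContDiffAt ℝ ∞ (inv B) (V z) := contDiffAt_inv B (by
        rw [den_V B hn]
        positivity)
      exact h2.comp z (contDiffOn_V.contDiffAt (isOpen_compl_singleton.mem_nhds hz))
    have h2 : ContDiffAt ℝ ∞ (f ∘ par B) (inv B (V z)) :=
      (hf _ _ (isLocalParam B hn)).contDiffAt Filter.univ_mem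
    have h3 : ContDiffAt ℝ ∞ (fun w => (f ∘ par B) (inv B (V w))) z :=
      ContDiffAt.comp (g := f ∘ par B) (f := fun w => inv B (V w)) z h2 h1
    refine (h3.congr_of_eventuallyEq ?_).contDiffWithinAt
    have h4 : ∀ᶠ w in 𝓝 z, ⟪w, B 0⟫ ≠ 0 :=
      (continuous_id.inner continuous_const).continuousAt.eventually_ne hzz
    filter_upwards [h4, isOpen_compl_singleton.mem_nhds hz] with w hw hw'
    simp only [Function.comp]
    rw [par_inv hn B hw' hw]
  hom := fun t ht z => by simp only [Function.comp]; rw [V_smul ht]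

theorem inner_par_fderiv (B : OrthonormalBasis (Fin (n + 1)) ℝ (E (n + 1))) (u : E n) :
    ⟪par B 0, fderiv ℝ (par B) 0 u⟫ = 0 := by
  have h4 : par B 0 = cn n • (ten (B 0) (B 0) - (n + 1 : ℝ)⁻¹ • idv n) := by
    simpa using par_line B 0 0
  rw [(derivs_par B u).1, h4]
  simp only [inner_smul_left, inner_smul_right, inner_add_right, inner_sub_left, inner_ten,
    conj_trivial, inner_T_zero, real_inner_comm (T B u) (B 0), B.inner_eq_one,
    real_inner_comm _ (idv n), inner_ten_idv]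
  ring

theorem laplace_center (hn : n ≠ 0) (B : OrthonormalBasis (Fin (n + 1)) ℝ (E (n + 1)))
    {f : E ((n + 1) * (n + 1)) → ℝ} (hF : IsH (f ∘ V)) :
    laplaceBeltrami (par B) (f ∘ par B) 0 (fr n) = (sc n)⁻¹ * lap (f ∘ V) (B 0) := by
  unfold laplaceBeltrami
  rw [traceD2_par B hn]
  have h1 : ∀ k, ⟪-(n : ℝ) • par B 0, fderiv ℝ (par B) 0 (fr n k)⟫ = 0 := by
    intro k
    rw [inner_smul_left, inner_par_fderiv, mul_zero]
  simp_rw [h1]
  rw [hF.lap_split B, Finset.mul_sum]
  simp only [zero_mul, Finset.sum_const_zero, sub_zero]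
  unfold traceD2
  refine Finset.sum_congr rfl fun i _ => ?_
  have h2 := (D2_affine (F := f ∘ V) (T B) (B 0) 0 ((hF.contDiffAt (by
    have := aff_ne_zero B 0
    exact this)).of_le le_two)).2
  have h3 : (fun y => (f ∘ V) (B 0 + T B y)) = f ∘ par B := rfl
  rw [h3] at h2
  rw [fr, map_smul, map_smul, _root_.smul_apply, h2, T_single, (T B).map_zero, add_zero, smul_smul,
    sqrt_sc hn, smul_eq_mul]

end Pool.Agent.V11193.Ver
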