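import Pool.Agent.V11193.Ver.Comp

/-! Eigenvalues of `ℝPⁿ` counted with multiplicity. -/

set_option autoImplicit false

open Pool.Agent.H85R3.Minimal MeasureTheory
open scoped ContDiff RealInnerProductSpace Topology

namespace Pool.Agent.V11193.Ver

variable {n : ℕ}

/-- A preimage under the Veronese map. -/
noncomputable def sec (Q : RPn n) : E (n + 1) := Q.2.choose

theorem sec_ne (Q : RPn n) : sec Q ≠ 0 := Q.2.choose_spec.1

theorem V_sec (Q : RPn n) : V (sec Q) = Q := Q.2.choose_spec.2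

/-- Functions on `ℝPⁿ` from homogeneous functions. -/
noncomputable def Psi (n : ℕ) : (E (n + 1) → ℝ) →ₗ[ℝ] (RPn n → ℝ) := LinearMap.funLeft ℝ ℝ sec

theorem Psi_apply (F : E (n + 1) → ℝ) (Q : RPn n) : Psi n F Q = F (sec Q) := rfl

theorem Psi_congr {F G : E (n + 1) → ℝ} (h : ∀ z, z ≠ 0 → F z = G z) : Psi n F = Psi n G := by
  funext Q
  exact h _ (sec_ne Q)

theorem Psi_zero (hn : n ≠ 0) {F : E (n + 1) → ℝ} (hF : IsH F) (h : Psi n F = 0) :
    ∀ z, z ≠ 0 → F z = 0 := by
  intro z hz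
  have h1 := congrFun h ⟨V z, z, hz, rfl⟩
  rw [Psi_apply] at h1
  have h2 := V_sec (n := n) ⟨V z, z, hz, rfl⟩
  obtain ⟨t, ht, htz⟩ := V_injective hn (sec_ne _) hz h2
  rw [htz, hF.hom t ht, h1]
  rfl

/-- The bound below which all eigenfunctions are quadratic. -/
noncomputable def bb (n : ℕ) : ℝ := (sc n)⁻¹ * (4 * (n + 3))

theorem spec_le (hn : n ≠ 0) {μ : ℝ} (hμ : μ < bb n) :
    specSpace n (RPn n) μ ≤ (Qsp n).map (Psi n) := by
  unfold specSpace
  rw [Submodule.span_le]
  rintro g ⟨ν, hν, f, hf, hg⟩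
  obtain ⟨hH, hl⟩ := eigen_to_H hn hf
  have hs := sc_pos hn
  have hc : sc n * ν < 4 * (n + 3) := by
    have h1 : ν < (sc n)⁻¹ * (4 * (n + 3)) := lt_of_le_of_lt hν hμ
    calc sc n * ν < sc n * ((sc n)⁻¹ * (4 * (n + 3))) := mul_lt_mul_of_pos_left h1 hs
      _ = 4 * (n + 3) := by rw [← mul_assoc, mul_inv_cancel₀ hs.ne', one_mul]
  obtain ⟨Q, hQ, hFQ⟩ := eig_mem hH hc hl
  refine ⟨Q, hQ, ?_⟩
  funext p
  rw [Psi_apply, ← hFQ _ (sec_ne p), hg p, Function.comp, V_sec]

theorem spec_neg (hn : n ≠ 0) {μ : ℝ} (hμ : μ < 0) : specSpace n (RPn n) μ = ⊥ := by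
  rw [eq_bot_iff]
  unfold specSpace
  rw [Submodule.span_le]
  rintro g ⟨ν, hν, f, hf, hg⟩
  obtain ⟨hH, hl⟩ := eigen_to_H hn hf
  have hc : sc n * ν < 0 := mul_neg_of_pos_of_neg (sc_pos hn) (lt_of_le_of_lt hν hμ)
  have h0 := eig_neg hH hc hl
  change g = 0
  funext p
  rw [hg p, ← V_sec p]
  exact h0 _ (sec_ne p)

/-! ### Quadratic forms are sums of eigenfunctions -/

theorem lap_add_smul {P Q : E (n + 1) → ℝ} (hP : ContDiff ℝ ∞ P) (hQ : ContDiff ℝ ∞ Q) (c : ℝ)
    (z : E (n + 1)) : lap (P + c • Q) z = lap P z + c * lap Q z := by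
  have h1 : (fun y => fderiv ℝ (P + c • Q) y) = fun y => fderiv ℝ P y + c • fderiv ℝ Q y := by
    funext y
    have hp := (hP.differentiable (by simp)).differentiableAt (x := y)
    have hq := (hQ.differentiable (by simp)).differentiableAt (x := y)
    exact (hp.hasFDerivAt.add (hq.hasFDerivAt.const_smul c)).fderiv
  have h2 : D2 (P + c • Q) z = D2 P z + c • D2 Q z := by
    have hp : ContDiff ℝ ∞ (fun y => fderiv ℝ P y) := hP.fderiv_right (by simp)
    have hq : ContDiff ℝ ∞ (fun y => fderiv ℝ Q y) := hQ.fderiv_right (by simp)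
    unfold D2
    rw [h1]
    exact ((hp.differentiable (by simp)).differentiableAt.hasFDerivAt.add
      ((hq.differentiable (by simp)).differentiableAt.hasFDerivAt.const_smul c)).fderiv
  unfold lap traceD2
  rw [h2, Finset.mul_sum, ← Finset.sum_add_distrib]
  rfl

theorem lap_nsq (z : E (n + 1)) : lap (fun z => ‖z‖ ^ 2) z = 2 * (n + 1) := by
  have h1 : ∀ i : Fin (n + 1), D2 (fun z : E (n + 1) => ‖z‖ ^ 2) z (bv i) (bv i) = 2 := by
    intro i
    refine (D2_of_curve (c₁ := fun t => 2 * ⟪z, (bv i : E (n + 1))⟫ + 2 * t)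
      (isP_nsq.smooth.contDiffAt.of_le le_two) (fun t => ?_) ?_).2
    · have h2 : HasDerivAt (fun s : ℝ => ‖z‖ ^ 2 + 2 * (s * ⟪z, (bv i : E (n + 1))⟫) + s ^ 2)
          (2 * ⟪z, (bv i : E (n + 1))⟫ + 2 * t) t := by
        have h : HasDerivAt (fun s : ℝ => ‖z‖ ^ 2 + 2 * (s * ⟪z, (bv i : E (n + 1))⟫) + s ^ 2) _ t :=
          ((((hasDerivAt_id t).mul_const ⟪z, (bv i : E (n + 1))⟫).const_mul 2).const_add
            (‖z‖ ^ 2)).add ((hasDerivAt_id t).pow 2)
        exact h.congr_deriv (by simp)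
      refine h2.congr_of_eventuallyEq (Filter.Eventually.of_forall fun s => ?_)
      simp only []
      rw [norm_add_sq_real, inner_smul_right, norm_smul, mul_pow]
      simp
    · have := ((hasDerivAt_id (0 : ℝ)).const_mul 2).const_add (2 * ⟪z, (bv i : E (n + 1))⟫)
      simpa using this
  unfold lap traceD2
  simp_rw [h1]
  simp
  ring

theorem spec_const (hn : n ≠ 0) {μ : ℝ} (hμ : 0 ≤ μ) : Psi n (fun _ => 1) ∈ specSpace n (RPn n) μ := by
  refine Submodule.subset_span ⟨_, ?_, fun _ => 1, eigen_of_P hn (m := 0) (isP_const 1) ?_ ?_, ?_⟩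
  · simpa using hμ
  · intro z
    have h1 : (fun y : E (n + 1) => fderiv ℝ (fun _ : E (n + 1) => (1 : ℝ)) y) = fun _ => 0 := by
      funext y; simp
    unfold lap traceD2 D2
    rw [h1]
    simp
  · intro z hz; simp [quo]
  · intro p; rfl

theorem sc_inv (hn : n ≠ 0) : (sc n)⁻¹ = n / (2 * (n + 1)) := by
  have : (0 : ℝ) < n := by positivity
  unfold sc
  field_simp

theorem spec_quad (hn : n ≠ 0) {P : E (n + 1) → ℝ} (hP : IsP 2 P) :
    Psi n (quo 1 P) ∈ specSpace n (RPn n) n := by
  have h0 : (0 : ℝ) < n := by positivity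
  set c : ℝ := -(lap P 0 / (2 * (n + 1))) with hc
  set P' : E (n + 1) → ℝ := P + c • fun z => ‖z‖ ^ 2 with hP'
  have hPP : IsP (2 * 1) P' := hP.add (isP_nsq.smul c)
  have hL : IsP 0 (lap P) := IsP.lap (k := 0) hP
  have hlap : ∀ z, lap P' z = 0 := by
    intro z
    rw [hP', lap_add_smul hP.smooth isP_nsq.smooth, lap_nsq, isP_lap_const hL z, hc]
    field_simp
    ring
  obtain ⟨f, hf⟩ := hPP.isH.factor hn
  have he := eigen_of_P hn hPP hlap hf
  have h1 : Psi n (quo 1 P') ∈ specSpace n (RPn n) n := by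
    refine Submodule.subset_span ⟨_, ?_, f, he, ?_⟩
    · rw [sc_inv hn]
      refine le_of_eq ?_
      field_simp
      push_cast
      ring
    · intro p
      rw [Psi_apply, ← hf _ (sec_ne p), V_sec]
  have h2 := spec_const hn (μ := n) h0.le
  have h3 : Psi n (quo 1 P) = Psi n (quo 1 P') + (-c) • Psi n (fun _ => 1) := by
    rw [← map_smul, ← map_add]
    refine Psi_congr fun z hz => ?_
    have h5 : ‖z‖ ^ 2 ≠ 0 := by positivity
    simp only [hP', quo, Pi.add_apply, Pi.smul_apply, smul_eq_mul, pow_one]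
    field_simp
    ring
  rw [h3]
  exact Submodule.add_mem _ h1 (Submodule.smul_mem _ _ h2)

theorem map_le_spec (hn : n ≠ 0) : (Qsp n).map (Psi n) ≤ specSpace n (RPn n) n := by
  rintro g ⟨Q, hQ, rfl⟩
  obtain ⟨P, hP, rfl⟩ := exists_of_mem hQ
  exact spec_quad hn hP

theorem mon_independent {c : Sym2 (Fin (n + 1)) → ℝ}
    (h : ∀ z : E (n + 1), z ≠ 0 → ∑ s, c s * mon s z = 0) : ∀ s, c s = 0 := by
  have hd : ∀ i, c s(i, i) = 0 := by
    intro i
    have hz : (bv i : E (n + 1)) ≠ 0 := by simp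
    have h1 := h _ hz
    rw [Finset.sum_eq_single s(i, i)] at h1
    · simpa using h1
    · intro s _ hs
      induction s with
      | _ k l =>
        rw [mon_mk]
        by_cases hk : k = i
        · by_cases hl : l = i
          · exact absurd (by rw [hk, hl]) hs
          · simp [hl]
        · simp [hk]
    · simp
  intro s
  induction s with
  | _ i j =>
    by_cases hij : i = j
    · rw [hij]; exact hd j
    · have hz : (bv i + bv j : E (n + 1)) ≠ 0 := by
        intro h0
        have := congrArg (fun v : E (n + 1) => v i) h0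
        simp [hij] at this
      have h1 := h _ hz
      rw [Finset.sum_eq_single s(i, j)] at h1
      · rw [mon_mk] at h1
        simpa [hij, Ne.symm hij] using h1
      · intro s _ hs
        induction s with
        | _ k l =>
          by_cases hkl : k = l
          · rw [hkl, hd l, zero_mul]
          · rw [mon_mk]
            by_cases hki : k = i
            · have h2 : l ≠ j := by rintro rfl; exact hs (by rw [hki])
              have h3 : l ≠ i := by rintro rfl; exact hkl hki
              simp [h2, h3]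
            · by_cases hkj : k = j
              · have h2 : l ≠ i := by rintro rfl; exact hs (by rw [hkj, Sym2.eq_swap])
                have h3 : l ≠ j := by rintro rfl; exact hkl hkj
                simp [h2, h3]
              · simp [hki, hkj]
      · simp

theorem indep (hn : n ≠ 0) : LinearIndependent ℝ fun s => Psi n (quo 1 (mon s)) := by
  rw [Fintype.linearIndependent_iff]
  intro c hc
  apply mon_independent
  have h1 : Psi n (∑ s, c s • quo 1 (mon s)) = 0 := by
    rw [map_sum, ← hc]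
    exact Finset.sum_congr rfl fun s _ => by rw [map_smul]
  have h2 : (∑ s, c s • quo 1 (mon s)) ∈ Qsp n :=
    Submodule.sum_mem _ fun s _ => Submodule.smul_mem _ _ (Submodule.subset_span ⟨s, rfl⟩)
  have h3 := Psi_zero hn (isH_of_mem h2) h1
  intro z hz
  have h4 := h3 z hz
  have h5 : ‖z‖ ^ 2 ≠ 0 := by positivity
  simp only [Finset.sum_apply, Pi.smul_apply, smul_eq_mul, quo, pow_one] at h4
  have h6 : (∑ s, c s * mon s z) / ‖z‖ ^ 2 = 0 := by
    rw [Finset.sum_div, ← h4]
    exact Finset.sum_congr rfl fun s _ => by rw [mul_div_assoc]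
  rcases div_eq_zero_iff.mp h6 with h7 | h7
  · exact h7
  · exact absurd h7 h5

/-- The number of quadratic monomials. -/
theorem card_sym (n : ℕ) : Fintype.card (Sym2 (Fin (n + 1))) = (n + 2).choose 2 := by
  rw [Sym2.card, Fintype.card_fin]

theorem rank_spec_ge (hn : n ≠ 0) :
    ((n + 2).choose 2 : Cardinal) ≤ Module.rank ℝ (specSpace n (RPn n) n) := by
  have h1 : ((n + 2).choose 2 : Cardinal) ≤ Module.rank ℝ ((Qsp n).map (Psi n)) := by
    rw [← card_sym n, ← Cardinal.mk_fintype]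
    have h2 : LinearIndependent ℝ fun s : Sym2 (Fin (n + 1)) =>
        (⟨Psi n (quo 1 (mon s)), ⟨_, Submodule.subset_span ⟨s, rfl⟩, rfl⟩⟩ :
          (Qsp n).map (Psi n)) :=
      LinearIndependent.of_comp ((Qsp n).map (Psi n)).subtype (indep hn)
    exact h2.cardinal_le_rank
  exact h1.trans (Submodule.rank_mono (map_le_spec hn))

theorem rank_spec_le (hn : n ≠ 0) {μ : ℝ} (hμ : μ < bb n) :
    Module.rank ℝ (specSpace n (RPn n) μ) ≤ ((n + 2).choose 2 : Cardinal) := by
  refine (Submodule.rank_mono (spec_le hn hμ)).trans ?_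
  have h1 : (Qsp n).map (Psi n) = Submodule.span ℝ (Set.range fun s => Psi n (quo 1 (mon s))) := by
    rw [Qsp, Submodule.map_span, ← Set.range_comp]
    rfl
  rw [h1, ← card_sym n, ← Cardinal.mk_fintype]
  exact (rank_span_le _).trans Cardinal.mk_range_le

/-! ### Infinitely many eigenvalues -/

/-- `Re (z₀ + i z_n)^N`. -/
noncomputable def hk (N : ℕ) (z : E (n + 1)) : ℝ :=
  (((z 0 : ℂ) + z (Fin.last n) * Complex.I) ^ N).re

theorem isP_hk (N : ℕ) : IsP N (hk (n := n) N) where
  smooth := by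
    unfold hk
    refine Complex.reCLM.contDiff.comp (ContDiff.pow (ContDiff.add ?_ (ContDiff.mul ?_ contDiff_const)) N)
    · exact Complex.ofRealCLM.contDiff.comp (by fun_prop : ContDiff ℝ ∞ fun z : E (n + 1) => z 0)
    · exact Complex.ofRealCLM.contDiff.comp
        (by fun_prop : ContDiff ℝ ∞ fun z : E (n + 1) => z (Fin.last n))
  hom := by
    intro t ht z
    unfold hk
    have : (((t • z) 0 : ℝ) : ℂ) + ((t • z) (Fin.last n) : ℝ) * Complex.I =
        (t : ℂ) * ((z 0 : ℂ) + z (Fin.last n) * Complex.I) := by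
      simp
      ring
    rw [this, mul_pow, ← Complex.ofReal_pow, Complex.re_ofReal_mul]

theorem D2_hk (N : ℕ) (z u : E (n + 1)) : D2 (hk N) z u u =
    ((N : ℂ) * (N - 1 : ℕ) * ((z 0 : ℂ) + z (Fin.last n) * Complex.I) ^ (N - 1 - 1) *
      ((u 0 : ℂ) + u (Fin.last n) * Complex.I) ^ 2).re := by
  set w : ℂ := (z 0 : ℂ) + z (Fin.last n) * Complex.I with hw
  set v : ℂ := (u 0 : ℂ) + u (Fin.last n) * Complex.I with hv
  have hl : ∀ t : ℝ, HasDerivAt (fun s : ℝ => w + (s : ℂ) * v) v t := by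
    intro t
    have := (((Complex.ofRealCLM.hasDerivAt (x := t))).mul_const v).const_add w
    simpa using this
  refine (D2_of_curve (c₁ := fun t : ℝ => ((N : ℂ) * (w + (t : ℂ) * v) ^ (N - 1) * v).re)
    ((isP_hk N).smooth.contDiffAt.of_le le_two) (fun t => ?_) ?_).2
  · have h1 := Complex.reCLM.hasFDerivAt.comp_hasDerivAt t ((hl t).pow N)
    refine (h1.congr_of_eventuallyEq (Filter.Eventually.of_forall fun s => ?_)).congr_deriv ?_
    · simp only [hk, Function.comp, Complex.reCLM_apply]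
      congr 2
      rw [hw, hv]
      simp
      ring
    · simp
  · have h1 := Complex.reCLM.hasFDerivAt.comp_hasDerivAt (0 : ℝ)
      ((((hl 0).pow (N - 1)).const_mul (N : ℂ)).mul_const v)
    refine (h1.congr_of_eventuallyEq (Filter.Eventually.of_forall fun s => ?_)).congr_deriv ?_
    · simp
    · simp only [Complex.reCLM_apply, Complex.ofReal_zero, zero_mul, add_zero]
      congr 1
      ring

theorem lap_hk (hn : n ≠ 0) (N : ℕ) (z : E (n + 1)) : lap (hk N) z = 0 := by
  unfold lap traceD2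
  have hne : (0 : Fin (n + 1)) ≠ Fin.last n := by
    intro h
    have := congrArg Fin.val h
    simp at this
    omega
  rw [Finset.sum_eq_add (0 : Fin (n + 1)) (Fin.last n) hne]
  · rw [D2_hk, D2_hk]
    simp [hne, Ne.symm hne]
  · intro i _ hi
    rw [D2_hk]
    simp [Ne.symm hi.1, Ne.symm hi.2]
  · simp
  · simp

theorem rank_unbounded (hn : n ≠ 0) (K : ℕ) :
    ∃ μ : ℝ, (K : Cardinal) ≤ Module.rank ℝ (specSpace n (RPn n) μ) := by
  have h0 : (0 : ℝ) < n := by positivity
  have h1n : (1 : ℝ) ≤ n := by exact_mod_cast Nat.one_le_iff_ne_zero.mpr hn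
  have hs := sc_pos hn
  have hH : ∀ m, IsH (quo m (hk (n := n) (2 * m))) := fun m => (isP_hk (2 * m)).isH
  have hl : ∀ m : ℕ, ∀ p, ‖p‖ = 1 → lap (quo m (hk (n := n) (2 * m))) p =
      -(2 * m * (2 * m + n - 1) : ℝ) * quo m (hk (n := n) (2 * m)) p := by
    intro m p hp
    rw [(isP_hk (2 * m)).lap_quo hp, lap_hk hn]
    simp [quo, hp]
  have hJ : ∀ m, J (quo m (hk (n := n) (2 * m))) (quo m (hk (2 * m))) ≠ 0 := by
    intro m hcon
    have := (hH m).zero_of_J hcon (bv 0) (by simp)
    have hne : Fin.last n ≠ (0 : Fin (n + 1)) := by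
      intro h
      have := congrArg Fin.val h
      simp at this
      omega
    simp [quo, hk, hne] at this
  refine ⟨(sc n)⁻¹ * (2 * K * (2 * K + n - 1)), ?_⟩
  have hmem : ∀ m : Fin K, Psi n (quo m (hk (n := n) (2 * m))) ∈
      specSpace n (RPn n) ((sc n)⁻¹ * (2 * K * (2 * K + n - 1))) := by
    intro m
    obtain ⟨f, hf⟩ := (hH m).factor hn
    refine Submodule.subset_span ⟨_, ?_, f, eigen_of_P hn (isP_hk (2 * m)) (lap_hk hn _) hf, ?_⟩
    · have hm : ((m : ℕ) : ℝ) ≤ K := by exact_mod_cast m.2.le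
      have hm0 : (0 : ℝ) ≤ ((m : ℕ) : ℝ) := Nat.cast_nonneg _
      apply mul_le_mul_of_nonneg_left _ (by positivity)
      apply mul_le_mul (by linarith) (by linarith) (by linarith) (by linarith)
    · intro p
      rw [Psi_apply, ← hf _ (sec_ne p), V_sec]
  have hli : LinearIndependent ℝ fun m : Fin K => Psi n (quo m (hk (n := n) (2 * m))) := by
    rw [Fintype.linearIndependent_iff]
    intro c hc j
    have h1 : Psi n (∑ m : Fin K, c m • quo m (hk (2 * m))) = 0 := by
      rw [map_sum, ← hc]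
      exact Finset.sum_congr rfl fun s _ => by rw [map_smul]
    have hHs : ∀ S : Finset (Fin K), IsH (∑ m ∈ S, c m • quo m (hk (n := n) (2 * m))) := by
      intro S
      induction S using Finset.induction_on with
      | empty =>
        rw [Finset.sum_empty]
        exact ⟨contDiffOn_const, fun t ht z => rfl⟩
      | insert a S ha ih =>
        rw [Finset.sum_insert ha]
        exact ((hH a).smul _).add ih
    have hJs : ∀ S : Finset (Fin K), J (∑ m ∈ S, c m • quo m (hk (n := n) (2 * m)))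
        (quo j (hk (2 * j))) = ∑ m ∈ S, c m * J (quo m (hk (n := n) (2 * m)))
        (quo j (hk (2 * j))) := by
      intro S
      induction S using Finset.induction_on with
      | empty =>
        rw [Finset.sum_empty, Finset.sum_empty]
        simp [J]
      | insert a S ha ih =>
        rw [Finset.sum_insert ha, Finset.sum_insert ha,
          J_add_left ((hH a).smul _) (hHs S) (hH j), J_smul_left, ih]
    have h2 := Psi_zero hn (hHs Finset.univ) h1
    have h3 := hJs Finset.univ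
    rw [J_congr (F' := 0) (G' := quo j (hk (2 * j))) h2 (fun z _ => rfl),
      Finset.sum_eq_single j] at h3
    · have h4 : J (0 : E (n + 1) → ℝ) (quo j (hk (2 * j))) = 0 := by simp [J]
      rw [h4] at h3
      rcases mul_eq_zero.mp h3.symm with h5 | h5
      · exact h5
      · exact absurd h5 (hJ _)
    · intro m _ hmj
      rw [eig_orth (hH m) (hH j) ?_ (hl m) (hl j), mul_zero]
      intro heq
      apply hmj
      apply Fin.ext
      have hm0 : (0 : ℝ) ≤ ((m : ℕ) : ℝ) := Nat.cast_nonneg _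
      have hj0 : (0 : ℝ) ≤ ((j : ℕ) : ℝ) := Nat.cast_nonneg _
      have h5 : (((m : ℕ) : ℝ) - ((j : ℕ) : ℝ)) * (2 * ((m : ℕ) : ℝ) + 2 * ((j : ℕ) : ℝ) + n - 1) = 0 := by
        linarith
      rcases mul_eq_zero.mp h5 with h6 | h6
      · exact_mod_cast (sub_eq_zero.mp h6)
      · have h7 : ((m : ℕ) : ℝ) = 0 := by linarith
        have h8 : ((j : ℕ) : ℝ) = 0 := by linarith
        have h9 : ((m : ℕ) : ℝ) = ((j : ℕ) : ℝ) := by rw [h7, h8]
        exact_mod_cast h9
    · simp
  have h2 : LinearIndependent ℝ fun m : Fin K =>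
      (⟨Psi n (quo m (hk (n := n) (2 * m))), hmem m⟩ :
        specSpace n (RPn n) ((sc n)⁻¹ * (2 * K * (2 * K + n - 1)))) :=
    LinearIndependent.of_comp (Submodule.subtype _) hli
  have h3 := h2.cardinal_le_rank
  simpa using h3

/-! ### The eigenvalues -/

theorem eigenvalue_nonneg_set (hn : n ≠ 0) (j : ℕ) :
    ∀ μ ∈ {μ : ℝ | (j : Cardinal) < Module.rank ℝ (specSpace n (RPn n) μ)}, 0 ≤ μ := by
  intro μ hμ
  by_contra hcon
  push Not at hcon
  have h1 : (j : Cardinal) < Module.rank ℝ (specSpace n (RPn n) μ) := hμ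
  rw [spec_neg hn hcon, rank_bot] at h1
  exact absurd h1 (not_lt.mpr zero_le)

theorem eigenvalue_nonempty (hn : n ≠ 0) (j : ℕ) :
    {μ : ℝ | (j : Cardinal) < Module.rank ℝ (specSpace n (RPn n) μ)}.Nonempty := by
  obtain ⟨μ, hμ⟩ := rank_unbounded hn (j + 1)
  refine ⟨μ, lt_of_lt_of_le ?_ hμ⟩
  exact_mod_cast Nat.lt_succ_self j

theorem eigenvalue_nonneg (hn : n ≠ 0) (j : ℕ) : 0 ≤ eigenvalue n (RPn n) j :=
  le_csInf (eigenvalue_nonempty hn j) (eigenvalue_nonneg_set hn j)

theorem eigenvalue_le (hn : n ≠ 0) {j : ℕ} (hj : j < (n + 2).choose 2) :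
    eigenvalue n (RPn n) j ≤ n := by
  refine csInf_le ⟨0, eigenvalue_nonneg_set hn j⟩ ?_
  refine lt_of_lt_of_le ?_ (rank_spec_ge hn)
  exact_mod_cast hj

theorem eigenvalue_ge (hn : n ≠ 0) {j : ℕ} (hj : (n + 2).choose 2 ≤ j) :
    bb n ≤ eigenvalue n (RPn n) j := by
  refine le_csInf (eigenvalue_nonempty hn j) fun μ hμ => ?_
  by_contra hcon
  push Not at hcon
  have h1 : (j : Cardinal) < Module.rank ℝ (specSpace n (RPn n) μ) := hμ
  have h2 := lt_of_lt_of_le h1 (rank_spec_le hn hcon)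
  have h3 : j < (n + 2).choose 2 := by exact_mod_cast h2
  omega

end Pool.Agent.V11193.Ver
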