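import Pool.Agent.V11193.Ver.Fun

/-! Integration over a spherical shell: Green's identity for homogeneous functions of degree `0`
and completeness of the homogeneous polynomials. -/

set_option autoImplicit false

open Pool.Agent.H85R3.Minimal MeasureTheory
open scoped ContDiff RealInnerProductSpace Topology

namespace Pool.Agent.V11193.Ver

variable {n : ℕ}

theorem cont_of {h : E (n + 1) → ℝ} (hc : ContinuousOn h {0}ᶜ) {r : ℝ} (hr : 0 < r)
    (h0 : ∀ z, ‖z‖ < r → h z = 0) : Continuous h := by
  rw [continuous_iff_continuousAt]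
  intro z
  by_cases hz : z = 0
  · rw [hz]
    have h1 : h =ᶠ[𝓝 0] fun _ => 0 := by
      filter_upwards [Metric.ball_mem_nhds (0 : E (n + 1)) hr] with w hw
      exact h0 w (by simpa using hw)
    exact continuousAt_const.congr h1.symm
  · exact hc.continuousAt (isOpen_compl_singleton.mem_nhds hz)

theorem compact_of {h : E (n + 1) → ℝ} (h1 : ∀ z, 2 < ‖z‖ → h z = 0) : HasCompactSupport h := by
  refine HasCompactSupport.intro (isCompact_closedBall (0 : E (n + 1)) 2) fun z hz => h1 z ?_
  simpa using hz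

theorem integrable_of {h : E (n + 1) → ℝ} (hc : ContinuousOn h {0}ᶜ)
    (h0 : ∀ z, ‖z‖ < 1 → h z = 0) (h1 : ∀ z, 2 < ‖z‖ → h z = 0) : Integrable h :=
  (cont_of hc one_pos h0).integrable_of_hasCompactSupport (compact_of h1)

/-- The radial profile. -/
noncomputable def eta (t : ℝ) : ℝ := Real.smoothTransition (t - 1) * Real.smoothTransition (4 - t)

theorem contDiff_eta : ContDiff ℝ ∞ eta := by
  unfold eta
  exact (Real.smoothTransition.contDiff.comp (contDiff_id.sub contDiff_const)).mul
    (Real.smoothTransition.contDiff.comp (contDiff_const.sub contDiff_id))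

/-- The radial weight, supported in the shell `1 ≤ |z| ≤ 2`. -/
noncomputable def psi (z : E (n + 1)) : ℝ := eta (‖z‖ ^ 2)

theorem contDiff_psi : ContDiff ℝ ∞ (psi (n := n)) := contDiff_eta.comp (contDiff_norm_sq ℝ)

theorem psi_nonneg (z : E (n + 1)) : 0 ≤ psi z :=
  mul_nonneg (Real.smoothTransition.nonneg _) (Real.smoothTransition.nonneg _)

theorem psi_pos {z : E (n + 1)} (h1 : 1 < ‖z‖) (h2 : ‖z‖ < 2) : 0 < psi z :=
  mul_pos (Real.smoothTransition.pos_of_pos (by nlinarith))
    (Real.smoothTransition.pos_of_pos (by nlinarith [norm_nonneg z]))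

theorem psi_small {z : E (n + 1)} (h : ‖z‖ < 1) : psi z = 0 := by
  unfold psi eta
  rw [Real.smoothTransition.zero_of_nonpos (by nlinarith [norm_nonneg z]), zero_mul]

theorem psi_large {z : E (n + 1)} (h : 2 < ‖z‖) : psi z = 0 := by
  unfold psi eta
  rw [Real.smoothTransition.zero_of_nonpos (x := 4 - ‖z‖ ^ 2) (by nlinarith [norm_nonneg z]),
    mul_zero]

theorem fderiv_psi (z v : E (n + 1)) :
    fderiv ℝ psi z v = deriv eta (‖z‖ ^ 2) * (2 * ⟪z, v⟫) := by
  have h1 : HasFDerivAt (fun z : E (n + 1) => ‖z‖ ^ 2) (2 • innerSL ℝ z) z :=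
    (hasStrictFDerivAt_norm_sq z).hasFDerivAt
  have h2 : HasDerivAt eta (deriv eta (‖z‖ ^ 2)) (‖z‖ ^ 2) :=
    (contDiff_eta.differentiable (by simp)).differentiableAt.hasDerivAt
  have h3 := h2.comp_hasFDerivAt z h1
  have h4 : HasFDerivAt (psi (n := n)) (deriv eta (‖z‖ ^ 2) • (2 • innerSL ℝ z)) z := h3
  rw [h4.fderiv]
  simp

/-- The weight of the invariant integral. -/
noncomputable def wt (z : E (n + 1)) : ℝ := psi z * (‖z‖ ^ 2)⁻¹

theorem wt_nonneg (z : E (n + 1)) : 0 ≤ wt z := mul_nonneg (psi_nonneg z) (by positivity)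

theorem contOn_wt : ContinuousOn (wt (n := n)) {0}ᶜ := by
  intro z hz
  have h0 : z ≠ 0 := hz
  have h1 : ‖z‖ ^ 2 ≠ 0 := by positivity
  have : ContinuousAt (fun z : E (n + 1) => psi z * (‖z‖ ^ 2)⁻¹) z :=
    contDiff_psi.continuous.continuousAt.mul ((continuous_norm.pow 2).continuousAt.inv₀ h1)
  exact this.continuousWithinAt

theorem integrable_wt {h : E (n + 1) → ℝ} (hc : ContinuousOn h {0}ᶜ) :
    Integrable fun z => wt z * h z :=
  integrable_of (contOn_wt.mul hc) (fun z hz => by simp [wt, psi_small hz])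
    fun z hz => by simp [wt, psi_large hz]

theorem integrable_psi {h : E (n + 1) → ℝ} (hc : ContinuousOn h {0}ᶜ) :
    Integrable fun z => psi z * h z :=
  integrable_of (contDiff_psi.continuous.continuousOn.mul hc) (fun z hz => by simp [psi_small hz])
    fun z hz => by simp [psi_large hz]

/-- The invariant inner product of functions. -/
noncomputable def J (F G : E (n + 1) → ℝ) : ℝ := ∫ z, wt z * (F z * G z)

theorem IsH.cont {F : E (n + 1) → ℝ} (hF : IsH F) : ContinuousOn F {0}ᶜ := hF.smooth.continuousOn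

theorem J_comm (F G : E (n + 1) → ℝ) : J F G = J G F := by
  unfold J; simp_rw [mul_comm (F _) (G _)]

theorem J_add {F G K : E (n + 1) → ℝ} (hF : ContinuousOn F {0}ᶜ) (hG : ContinuousOn G {0}ᶜ)
    (hK : ContinuousOn K {0}ᶜ) : J K (F + G) = J K F + J K G := by
  unfold J
  have i1 : Integrable fun z => wt z * (K z * F z) := integrable_wt (hK.mul hF)
  have i2 : Integrable fun z => wt z * (K z * G z) := integrable_wt (hK.mul hG)
  rw [← integral_add i1 i2]
  refine integral_congr_ae (Filter.Eventually.of_forall fun z => ?_)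
  simp only [Pi.add_apply]
  ring

theorem J_smul (c : ℝ) (F K : E (n + 1) → ℝ) : J K (c • F) = c * J K F := by
  unfold J
  rw [← integral_const_mul]
  refine integral_congr_ae (Filter.Eventually.of_forall fun z => ?_)
  simp only [Pi.smul_apply, smul_eq_mul]
  ring

theorem wt_zero : wt (0 : E (n + 1)) = 0 := by simp [wt]

theorem J_congr {F F' G G' : E (n + 1) → ℝ} (h : ∀ z, z ≠ 0 → F z = F' z)
    (h' : ∀ z, z ≠ 0 → G z = G' z) : J F G = J F' G' := by
  unfold J
  congr 1
  funext z
  by_cases hz : z = 0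
  · rw [hz, wt_zero, zero_mul, zero_mul]
  · rw [h z hz, h' z hz]

theorem J_self_nonneg (F : E (n + 1) → ℝ) : 0 ≤ J F F :=
  integral_nonneg fun z => mul_nonneg (wt_nonneg z) (mul_self_nonneg _)

theorem J_self_eq_zero {F : E (n + 1) → ℝ} (hF : ContinuousOn F {0}ᶜ)
    (hom : ∀ t : ℝ, 0 < t → ∀ z, F (t • z) = F z) (h : J F F = 0) :
    ∀ z, z ≠ 0 → F z = 0 := by
  have hc : Continuous fun z => wt z * (F z * F z) :=
    cont_of (contOn_wt.mul (hF.mul hF)) one_pos (fun z hz => by simp [wt, psi_small hz])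
  have hcs : HasCompactSupport fun z => wt z * (F z * F z) :=
    compact_of fun z hz => by simp [wt, psi_large hz]
  intro z hz
  by_contra hne
  have h0 : ‖z‖ ≠ 0 := by positivity
  have h0' : 0 < ‖z‖ := by positivity
  have hpos : 0 < ∫ z, wt z * (F z * F z) := by
    refine hc.integral_pos_of_hasCompactSupport_nonneg_nonzero (x := ((3 / 2) * ‖z‖⁻¹) • z) hcs
      (fun z => mul_nonneg (wt_nonneg z) (mul_self_nonneg _)) ?_
    rw [hom _ (by positivity)]
    have hn : ‖((3 / 2) * ‖z‖⁻¹) • z‖ = 3 / 2 := by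
      rw [norm_smul, norm_mul, norm_inv, norm_norm, mul_assoc, inv_mul_cancel₀ h0]
      norm_num
    have h1 : 0 < psi (((3 / 2) * ‖z‖⁻¹) • z) := psi_pos (by rw [hn]; norm_num) (by rw [hn]; norm_num)
    refine mul_ne_zero (mul_ne_zero h1.ne' ?_) (mul_ne_zero hne hne)
    rw [hn]
    norm_num
  unfold J at h
  rw [h] at hpos
  exact lt_irrefl _ hpos

/-! ### Green's identity -/

/-- The basis vectors. -/
noncomputable abbrev bv (k : Fin (n + 1)) : E (n + 1) := EuclideanSpace.single k 1

theorem psi_eventually_zero {z : E (n + 1)} (h : ‖z‖ < 1 ∨ 2 < ‖z‖) : psi =ᶠ[𝓝 z] fun _ => 0 := by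
  rcases h with h | h
  · filter_upwards [continuous_norm.continuousAt.eventually_lt continuousAt_const h] with w hw
    exact psi_small hw
  · filter_upwards [continuousAt_const.eventually_lt continuous_norm.continuousAt h] with w hw
    exact psi_large hw

theorem green_aux {F G : E (n + 1) → ℝ} (hF : IsH F) (hG : IsH G) (k : Fin (n + 1)) :
    Integrable (fun z => G z * fderiv ℝ (fun z => psi z * fderiv ℝ F z (bv k)) z (bv k)) ∧
    Integrable (fun z => psi z * (fderiv ℝ G z (bv k) * fderiv ℝ F z (bv k))) ∧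
    ∫ z, G z * fderiv ℝ (fun z => psi z * fderiv ℝ F z (bv k)) z (bv k) =
      -∫ z, psi z * (fderiv ℝ G z (bv k) * fderiv ℝ F z (bv k)) := by
  have hF1 : ContDiffOn ℝ ∞ (fun z => fderiv ℝ F z (bv k)) {0}ᶜ := fun z hz =>
    (((hF.contDiffAt hz).fderiv_right (m := ∞) (by simp)).clm_apply
      contDiffAt_const).contDiffWithinAt
  have hG1 : ContDiffOn ℝ ∞ (fun z => fderiv ℝ G z (bv k)) {0}ᶜ := fun z hz =>
    (((hG.contDiffAt hz).fderiv_right (m := ∞) (by simp)).clm_apply
      contDiffAt_const).contDiffWithinAt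
  set g : E (n + 1) → ℝ := fun z => psi z * fderiv ℝ F z (bv k) with hg
  have hgs : ContDiff ℝ ∞ g := by
    rw [contDiff_iff_contDiffAt]
    intro z
    by_cases hz : z = 0
    · have h1 : g =ᶠ[𝓝 z] fun _ => 0 := by
        filter_upwards [psi_eventually_zero (z := z) (Or.inl (by rw [hz, norm_zero]; norm_num))]
          with w hw
        simp only [hg, hw, zero_mul]
      exact contDiffAt_const.congr_of_eventuallyEq h1
    · exact contDiff_psi.contDiffAt.mul (hF1.contDiffAt (isOpen_compl_singleton.mem_nhds hz))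
  have hgz : ∀ z, (‖z‖ < 1 ∨ 2 < ‖z‖) → fderiv ℝ g z = 0 := by
    intro z hz
    have h1 : g =ᶠ[𝓝 z] fun _ => 0 := by
      filter_upwards [psi_eventually_zero hz] with w hw
      simp only [hg, hw, zero_mul]
    rw [h1.fderiv_eq]
    simp
  have i1 : Integrable (fun z => G z * fderiv ℝ g z (bv k)) := by
    refine integrable_of (hG.cont.mul ?_) (fun z hz => ?_) fun z hz => ?_
    · exact ((hgs.continuous_fderiv (by simp)).clm_apply continuous_const).continuousOn
    · rw [hgz z (Or.inl hz)]; simp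
    · rw [hgz z (Or.inr hz)]; simp
  have i2 : Integrable (fun z => psi z * (fderiv ℝ G z (bv k) * fderiv ℝ F z (bv k))) :=
    integrable_psi (hG1.continuousOn.mul hF1.continuousOn)
  refine ⟨i1, i2, ?_⟩
  have e1 : (fun z => fderiv ℝ G z (bv k) * g z) =
      fun z => psi z * (fderiv ℝ G z (bv k) * fderiv ℝ F z (bv k)) := by
    funext z; simp only [hg]; ring
  have i3 : Integrable (fun z => fderiv ℝ G z (bv k) * g z) := by rw [e1]; exact i2
  have i4 : Integrable (fun z => G z * g z) := by
    have : (fun z => G z * g z) = fun z => psi z * (G z * fderiv ℝ F z (bv k)) := by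
      funext z; simp only [hg]; ring
    rw [this]
    exact integrable_psi (hG.cont.mul hF1.continuousOn)
  have hdG : ∀ x ∈ tsupport g, DifferentiableAt ℝ G x := by
    intro x hx
    have hx0 : x ≠ 0 := by
      rintro rfl
      refine notMem_tsupport_iff_eventuallyEq.mpr ?_ hx
      filter_upwards [psi_eventually_zero (n := n) (z := 0) (Or.inl (by simp))] with w hw
      simp [hg, hw]
    exact (hG.contDiffAt hx0).differentiableAt (by simp)
  have := integral_mul_fderiv_eq_neg_fderiv_mul_of_integrable (μ := volume) (f := G) (g := g)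
    (v := bv k) i3 i1 i4 hdG fun x _ => (hgs.differentiable (by simp)).differentiableAt
  rw [this, e1]

theorem fderiv_radial_sum {F : E (n + 1) → ℝ} (z : E (n + 1)) :
    ∑ k, z k * fderiv ℝ F z (bv k) = fderiv ℝ F z z := by
  have h : z = ∑ k, z k • (bv k : E (n + 1)) := by
    have := (EuclideanSpace.basisFun (Fin (n + 1)) ℝ).sum_repr z
    simpa using this.symm
  have h2 : fderiv ℝ F z z = fderiv ℝ F z (∑ k, z k • (bv k : E (n + 1))) :=
    congrArg (fderiv ℝ F z) h
  rw [h2, map_sum]
  simp only [map_smul, smul_eq_mul]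

theorem green_sum {F : E (n + 1) → ℝ} (hF : IsH F) {z : E (n + 1)} :
    ∑ k, fderiv ℝ (fun z => psi z * fderiv ℝ F z (bv k)) z (bv k) = psi z * lap F z := by
  by_cases hz : z = 0
  · have h0 : psi =ᶠ[𝓝 z] fun _ => 0 := psi_eventually_zero (Or.inl (by rw [hz, norm_zero]; norm_num))
    rw [h0.self_of_nhds, zero_mul]
    refine Finset.sum_eq_zero fun k _ => ?_
    have h1 : (fun z => psi z * fderiv ℝ F z (bv k)) =ᶠ[𝓝 z] fun _ => 0 := by
      filter_upwards [h0] with w hw
      simp [hw]
    rw [h1.fderiv_eq]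
    simp
  · have hd : DifferentiableAt ℝ (fun z => fderiv ℝ F z) z :=
      ((hF.contDiffAt hz).fderiv_right (m := ∞) (by simp)).differentiableAt (by simp)
    have h1 : ∀ k, fderiv ℝ (fun z => psi z * fderiv ℝ F z (bv k)) z (bv k) =
        2 * deriv eta (‖z‖ ^ 2) * (z k * fderiv ℝ F z (bv k)) +
          psi z * D2 F z (bv k) (bv k) := by
      intro k
      have h2 : HasFDerivAt (fun z => fderiv ℝ F z (bv k))
          ((D2 F z).flip (bv k)) z := by
        have := hd.hasFDerivAt.clm_apply (hasFDerivAt_const (bv k : E (n + 1)) z)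
        refine this.congr_fderiv ?_
        ext v
        simp [D2]
      have h3 : HasFDerivAt (fun z => psi z * fderiv ℝ F z (bv k))
          (psi z • (D2 F z).flip (bv k) + (fderiv ℝ F z) (bv k) • fderiv ℝ psi z) z :=
        ((contDiff_psi.differentiable (by simp)).differentiableAt.hasFDerivAt (x := z)).mul h2
      rw [h3.fderiv]
      simp only [_root_.add_apply, _root_.smul_apply, smul_eq_mul, ContinuousLinearMap.flip_apply,
        fderiv_psi, EuclideanSpace.inner_single_right, one_mul, conj_trivial]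
      ring
    simp_rw [h1]
    rw [Finset.sum_add_distrib, ← Finset.mul_sum, ← Finset.mul_sum, fderiv_radial_sum,
      (hF.radial hz).1]
    unfold lap traceD2
    ring

theorem green {F G : E (n + 1) → ℝ} (hF : IsH F) (hG : IsH G) :
    ∫ z, psi z * (G z * lap F z) =
      -∑ k, ∫ z, psi z * (fderiv ℝ G z (bv k) * fderiv ℝ F z (bv k)) := by
  rw [← Finset.sum_neg_distrib]
  simp_rw [← fun k => (green_aux hF hG k).2.2]
  rw [← integral_finsetSum _ fun k _ => (green_aux hF hG k).1]
  congr 1
  funext z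
  rw [← Finset.mul_sum, green_sum hF]
  ring

/-- The Laplace operator normalised to preserve the degree `0`. -/
noncomputable def lapN (F : E (n + 1) → ℝ) (z : E (n + 1)) : ℝ := ‖z‖ ^ 2 * lap F z

theorem J_lapN {F G : E (n + 1) → ℝ} (hF : IsH F) (hG : IsH G) :
    J G (lapN F) = -∑ k, ∫ z, psi z * (fderiv ℝ G z (bv k) * fderiv ℝ F z (bv k)) := by
  rw [← green hF hG]
  unfold J lapN
  congr 1
  funext z
  by_cases hz : z = 0
  · rw [hz, wt_zero, psi_small (by simp)]; simp
  · unfold wt
    have : ‖z‖ ≠ 0 := by positivity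
    field_simp

theorem J_lapN_symm {F G : E (n + 1) → ℝ} (hF : IsH F) (hG : IsH G) :
    J G (lapN F) = J F (lapN G) := by
  rw [J_lapN hF hG, J_lapN hG hF]
  simp_rw [mul_comm (fderiv ℝ G _ _) (fderiv ℝ F _ _)]

theorem J_lapN_self {F : E (n + 1) → ℝ} (hF : IsH F) : J F (lapN F) ≤ 0 := by
  rw [J_lapN hF hF, neg_nonpos]
  exact Finset.sum_nonneg fun k _ => integral_nonneg fun z =>
    mul_nonneg (psi_nonneg z) (mul_self_nonneg _)

end Pool.Agent.V11193.Ver
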