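import Pool.Agent.H85R3.MinDefs

/-! The Veronese map of the unit sphere of `ℝ^{n+1}` into the unit sphere of the space of
`(n+1) × (n+1)` matrices: its image is a closed minimal submanifold. -/

set_option autoImplicit false

open Pool.Agent.H85R3.Minimal
open scoped ContDiff RealInnerProductSpace Topology

namespace Pool.Agent.V11193.Ver

variable {n : ℕ}

/-- The pair of indices that corresponds to `a`. -/
def pr (a : Fin ((n + 1) * (n + 1))) : Fin (n + 1) × Fin (n + 1) := finProdFinEquiv.symm a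

/-- The matrix `z wᵀ`. -/
noncomputable def ten (z w : E (n + 1)) : E ((n + 1) * (n + 1)) :=
  WithLp.toLp 2 fun a => z (pr a).1 * w (pr a).2

variable (n) in
/-- The identity matrix. -/
noncomputable def idv : E ((n + 1) * (n + 1)) :=
  WithLp.toLp 2 fun a => if (pr a).1 = (pr a).2 then 1 else 0

@[simp] theorem ten_apply (z w : E (n + 1)) (a) : ten z w a = z (pr a).1 * w (pr a).2 := rfl
@[simp] theorem idv_apply (a) : idv n a = if (pr a).1 = (pr a).2 then 1 else 0 := rfl

theorem sum_pr (F : Fin (n + 1) × Fin (n + 1) → ℝ) : ∑ a, F (pr a) = ∑ i, ∑ j, F (i, j) := by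
  unfold pr
  rw [Equiv.sum_comp finProdFinEquiv.symm F, Fintype.sum_prod_type]

theorem inner_eq {m : ℕ} (x y : E m) : ⟪x, y⟫ = ∑ i, x i * y i := by
  simp [PiLp.inner_apply, mul_comm]

theorem inner_ten (z w z' w' : E (n + 1)) : ⟪ten z w, ten z' w'⟫ = ⟪z, z'⟫ * ⟪w, w'⟫ := by
  rw [inner_eq, inner_eq, inner_eq, Finset.sum_mul_sum,
    ← sum_pr fun q => z q.1 * z' q.1 * (w q.2 * w' q.2)]
  exact Finset.sum_congr rfl fun a _ => by simp; ring

theorem inner_ten_idv (z w : E (n + 1)) : ⟪ten z w, idv n⟫ = ⟪z, w⟫ := by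
  rw [inner_eq, inner_eq]
  have := sum_pr (n := n) fun q => z q.1 * w q.2 * (if q.1 = q.2 then 1 else 0)
  simpa using this

theorem inner_idv : ⟪idv n, idv n⟫ = (n + 1 : ℝ) := by
  rw [inner_eq]
  have := sum_pr (n := n) fun q => (if q.1 = q.2 then (1 : ℝ) else 0) * (if q.1 = q.2 then 1 else 0)
  simpa using this

theorem ten_add_left (z z' w : E (n + 1)) : ten (z + z') w = ten z w + ten z' w := by
  ext a; simp; ring
theorem ten_add_right (z w w' : E (n + 1)) : ten z (w + w') = ten z w + ten z w' := by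
  ext a; simp; ring
theorem ten_smul_left (t : ℝ) (z w : E (n + 1)) : ten (t • z) w = t • ten z w := by
  ext a; simp; ring
theorem ten_smul_right (t : ℝ) (z w : E (n + 1)) : ten z (t • w) = t • ten z w := by
  ext a; simp; ring

theorem contDiff_ten : ContDiff ℝ ∞ fun z : E (n + 1) => ten z z := by
  rw [contDiff_euclidean]
  intro a
  simp only [ten_apply]
  fun_prop

theorem sum_ten (B : OrthonormalBasis (Fin (n + 1)) ℝ (E (n + 1))) :
    ∑ k, ten (B k) (B k) = idv n := by
  ext a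
  have h := B.sum_inner_mul_inner (EuclideanSpace.single (pr a).1 (1 : ℝ))
    (EuclideanSpace.single (pr a).2 (1 : ℝ))
  simp only [EuclideanSpace.inner_single_left, EuclideanSpace.inner_single_right, map_one, one_mul,
    conj_trivial] at h
  simp only [WithLp.ofLp_sum, Finset.sum_apply, ten_apply, idv_apply]
  rw [h, PiLp.single_apply]
  simp [eq_comm]

/-- The normalising factor. -/
noncomputable def cn (n : ℕ) : ℝ := Real.sqrt ((n + 1) / n)

theorem cn_sq (hn : n ≠ 0) : cn n ^ 2 = (n + 1) / n := by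
  unfold cn
  rw [Real.sq_sqrt (by positivity)]

theorem cn_pos (hn : n ≠ 0) : 0 < cn n := by
  have : (0 : ℝ) < n := by positivity
  unfold cn
  positivity

/-- The Veronese map, extended to all nonzero vectors as a homogeneous map of degree `0`. -/
noncomputable def V (z : E (n + 1)) : E ((n + 1) * (n + 1)) :=
  cn n • ((‖z‖ ^ 2)⁻¹ • ten z z - (n + 1 : ℝ)⁻¹ • idv n)

theorem V_smul {t : ℝ} (ht : t ≠ 0) (z : E (n + 1)) : V (t • z) = V z := by
  unfold V
  rw [ten_smul_left, ten_smul_right, norm_smul, mul_pow, smul_smul, smul_smul]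
  congr 3
  rw [Real.norm_eq_abs, sq_abs, mul_inv]
  field_simp

theorem contDiffOn_V : ContDiffOn ℝ ∞ (V (n := n)) {0}ᶜ := by
  intro z hz
  have h1 : ContDiffAt ℝ ∞ (fun z : E (n + 1) => (‖z‖ ^ 2)⁻¹) z := by
    apply ContDiffAt.inv (contDiff_norm_sq ℝ).contDiffAt
    have : z ≠ 0 := hz
    positivity
  have h2 : ContDiffAt ℝ ∞ (fun z : E (n + 1) =>
      cn n • ((‖z‖ ^ 2)⁻¹ • ten z z - (n + 1 : ℝ)⁻¹ • idv n)) z :=
    ((h1.smul contDiff_ten.contDiffAt).sub contDiffAt_const).const_smul _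
  exact h2.contDiffWithinAt

theorem norm_V (hn : n ≠ 0) {z : E (n + 1)} (hz : z ≠ 0) : ‖V z‖ = 1 := by
  have h0 : (0 : ℝ) < n := by positivity
  have hz' : ‖z‖ ≠ 0 := by positivity
  have h1 : ‖V z‖ ^ 2 = 1 := by
    have e1 : ‖ten z z‖ ^ 2 = ‖z‖ ^ 2 * ‖z‖ ^ 2 := by
      rw [← real_inner_self_eq_norm_sq, inner_ten, real_inner_self_eq_norm_sq]
    have e2 : ‖idv n‖ ^ 2 = n + 1 := by rw [← real_inner_self_eq_norm_sq, inner_idv]
    unfold V
    rw [norm_smul, mul_pow, norm_sub_sq_real, norm_smul, norm_smul, mul_pow, mul_pow, e1, e2,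
      inner_smul_left, inner_smul_right, inner_ten_idv, real_inner_self_eq_norm_sq]
    simp only [Real.norm_eq_abs, sq_abs, conj_trivial]
    rw [cn_sq hn]
    field_simp
    ring
  nlinarith [norm_nonneg (V z)]

/-- The projective space `ℝPⁿ` in the space of matrices. -/
def RPn (n : ℕ) : Set (E ((n + 1) * (n + 1))) := V '' ({0}ᶜ : Set (E (n + 1)))

/-! ### Gnomonic parametrisations -/

section Param

variable (B : OrthonormalBasis (Fin (n + 1)) ℝ (E (n + 1)))

/-- The isometric embedding of `ℝⁿ` onto the orthogonal complement of `B 0`. -/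
noncomputable def T : E n →L[ℝ] E (n + 1) :=
  ∑ i : Fin n, (EuclideanSpace.proj i : E n →L[ℝ] ℝ).smulRight (B i.succ)

theorem T_apply (y : E n) : T B y = ∑ i : Fin n, y i • B i.succ := by
  simp [T]

theorem inner_T_zero (y : E n) : ⟪T B y, B 0⟫ = 0 := by
  rw [T_apply, sum_inner]
  refine Finset.sum_eq_zero fun i _ => ?_
  rw [inner_smul_left, B.inner_eq_ite, if_neg (Fin.succ_ne_zero i)]
  simp

theorem inner_T_succ (y : E n) (i : Fin n) : ⟪T B y, B i.succ⟫ = y i := by
  rw [T_apply, sum_inner, Finset.sum_eq_single i]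
  · rw [inner_smul_left, B.inner_eq_one]; simp
  · intro j _ hj
    rw [inner_smul_left, B.inner_eq_ite, if_neg (by simpa using hj)]
    simp
  · simp

theorem inner_T (x y : E n) : ⟪T B x, T B y⟫ = ⟪x, y⟫ := by
  conv_lhs => rw [T_apply B y, inner_sum]
  rw [inner_eq]
  refine Finset.sum_congr rfl fun i _ => ?_
  rw [inner_smul_right, inner_T_succ]
  ring

theorem norm_T (x : E n) : ‖T B x‖ ^ 2 = ‖x‖ ^ 2 := by
  rw [← real_inner_self_eq_norm_sq, inner_T, real_inner_self_eq_norm_sq]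

theorem T_single (i : Fin n) : T B (EuclideanSpace.single i 1) = B i.succ := by
  rw [T_apply, Finset.sum_eq_single i]
  · simp
  · intro j _ hj
    simp [hj]
  · simp

/-- The affine map `y ↦ B₀ + y`. -/
noncomputable def aff (y : E n) : E (n + 1) := B 0 + T B y

theorem inner_aff_zero (y : E n) : ⟪aff B y, B 0⟫ = 1 := by
  rw [aff, inner_add_left, inner_T_zero, B.inner_eq_one, add_zero]

theorem inner_aff_succ (y : E n) (i : Fin n) : ⟪aff B y, B i.succ⟫ = y i := by
  rw [aff, inner_add_left, inner_T_succ, B.inner_eq_ite, if_neg (Fin.succ_ne_zero i).symm, zero_add]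

theorem aff_ne_zero (y : E n) : aff B y ≠ 0 := by
  intro h
  have := inner_aff_zero B y
  rw [h, inner_zero_left] at this
  exact zero_ne_one this

theorem contDiff_aff : ContDiff ℝ ∞ (aff B) := by
  unfold aff
  fun_prop

/-- The gnomonic parametrisation of `ℝPⁿ` centred at `V (B 0)`. -/
noncomputable def par (y : E n) : E ((n + 1) * (n + 1)) := V (aff B y)

theorem contDiff_par : ContDiff ℝ ∞ (par B) := by
  rw [← contDiffOn_univ]
  exact contDiffOn_V.comp (contDiff_aff B).contDiffOn fun y _ => aff_ne_zero B y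

/-- The affine map that inverts the normalisation. -/
noncomputable def nrm (Q : E ((n + 1) * (n + 1))) : E ((n + 1) * (n + 1)) :=
  (cn n)⁻¹ • Q + (n + 1 : ℝ)⁻¹ • idv n

theorem nrm_V (hn : n ≠ 0) (z : E (n + 1)) : nrm (V z) = (‖z‖ ^ 2)⁻¹ • ten z z := by
  unfold nrm V
  rw [smul_smul, inv_mul_cancel₀ (cn_pos hn).ne', one_smul, sub_add_cancel]

/-- The denominator of the inverse. -/
noncomputable def den (Q : E ((n + 1) * (n + 1))) : ℝ := ⟪nrm Q, ten (B 0) (B 0)⟫

/-- The inverse of the parametrisation. -/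
noncomputable def inv (Q : E ((n + 1) * (n + 1))) : E n :=
  WithLp.toLp 2 fun i => ⟪nrm Q, ten (B i.succ) (B 0)⟫ / den B Q

theorem den_V (hn : n ≠ 0) (z : E (n + 1)) : den B (V z) = (‖z‖ ^ 2)⁻¹ * (⟪z, B 0⟫ * ⟪z, B 0⟫) := by
  rw [den, nrm_V hn, inner_smul_left, inner_ten]; simp

theorem inv_V (hn : n ≠ 0) {z : E (n + 1)} (hz : z ≠ 0) (hz' : ⟪z, B 0⟫ ≠ 0) (i : Fin n) :
    inv B (V z) i = ⟪z, B i.succ⟫ / ⟪z, B 0⟫ := by
  have : ‖z‖ ≠ 0 := by positivity
  change ⟪nrm (V z), ten (B i.succ) (B 0)⟫ / den B (V z) = _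
  rw [den_V B hn, nrm_V hn, inner_smul_left, inner_ten, conj_trivial]
  field_simp

theorem den_par (hn : n ≠ 0) (y : E n) : den B (par B y) ≠ 0 := by
  have := aff_ne_zero B y
  rw [par, den_V B hn, inner_aff_zero]
  positivity

theorem inv_par (hn : n ≠ 0) (y : E n) : inv B (par B y) = y := by
  ext i
  rw [par, inv_V B hn (aff_ne_zero B y) (by rw [inner_aff_zero]; exact one_ne_zero),
    inner_aff_zero, inner_aff_succ, div_one]

theorem contDiff_nrm : ContDiff ℝ ∞ (nrm (n := n)) := by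
  unfold nrm
  fun_prop

theorem contDiff_den : ContDiff ℝ ∞ (den B) := by
  unfold den
  exact contDiff_nrm.inner ℝ contDiff_const

theorem contDiffAt_inv {Q : E ((n + 1) * (n + 1))} (hQ : den B Q ≠ 0) :
    ContDiffAt ℝ ∞ (inv B) Q := by
  rw [contDiffAt_euclidean]
  intro i
  change ContDiffAt ℝ ∞ (fun Q => ⟪nrm Q, ten (B i.succ) (B 0)⟫ / den B Q) Q
  exact ((contDiff_nrm.inner ℝ contDiff_const).contDiffAt).div (contDiff_den B).contDiffAt hQ

theorem decomp (z : E (n + 1)) (hz' : ⟪z, B 0⟫ ≠ 0) :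
    aff B (WithLp.toLp 2 fun i => ⟪z, B i.succ⟫ / ⟪z, B 0⟫) = (⟪z, B 0⟫)⁻¹ • z := by
  have h := B.sum_repr' z
  rw [Fin.sum_univ_succ] at h
  have h' := congrArg (fun w => (⟪z, B 0⟫)⁻¹ • w) h
  beta_reduce at h'
  rw [← h', aff, T_apply, smul_add, smul_smul, real_inner_comm z (B 0), inv_mul_cancel₀ hz',
    one_smul, Finset.smul_sum]
  congr 1
  refine Finset.sum_congr rfl fun i _ => ?_
  rw [smul_smul, real_inner_comm z (B i.succ)]
  congr 1
  simp only []
  rw [div_eq_inv_mul]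

theorem isLocalParam (hn : n ≠ 0) : IsLocalParam (RPn n) Set.univ (par B) where
  isOpen := isOpen_univ
  smooth := (contDiff_par B).contDiffOn
  immersion := by
    intro y _
    have h1 : HasFDerivAt (inv B) (fderiv ℝ (inv B) (par B y)) (par B y) :=
      ((contDiffAt_inv B (den_par B hn y)).differentiableAt (by simp)).hasFDerivAt
    have h2 : HasFDerivAt (par B) (fderiv ℝ (par B) y) y :=
      ((contDiff_par B).contDiffAt.differentiableAt (by simp)).hasFDerivAt
    have h3 := h1.comp y h2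
    have h4 : inv B ∘ par B = id := funext fun y => inv_par B hn y
    rw [h4] at h3
    have h5 := h3.unique (hasFDerivAt_id y)
    intro a b hab
    have h6 := congrArg (fun L : E n →L[ℝ] E n => L a) h5
    have h7 := congrArg (fun L : E n →L[ℝ] E n => L b) h5
    simp only [ContinuousLinearMap.comp_apply, ContinuousLinearMap.coe_id', id] at h6 h7
    rw [← h6, ← h7, hab]
  injOn := by
    intro a _ b _ hab
    rw [← inv_par B hn a, hab, inv_par B hn b]
  relOpen := by
    intro W _ hW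
    refine ⟨{Q | den B Q ≠ 0} ∩ inv B ⁻¹' W, ?_, ?_⟩
    · have h1 : IsOpen {Q : E ((n + 1) * (n + 1)) | den B Q ≠ 0} :=
        isOpen_ne_fun (contDiff_den B).continuous continuous_const
      have h2 : ContinuousOn (inv B) {Q | den B Q ≠ 0} := fun Q hQ =>
        (contDiffAt_inv B hQ).continuousAt.continuousWithinAt
      exact h2.isOpen_inter_preimage h1 hW
    · ext Q
      constructor
      · rintro ⟨y, hy, rfl⟩
        exact ⟨⟨_, aff_ne_zero B y, rfl⟩, den_par B hn y, by
          rw [Set.mem_preimage, inv_par B hn]; exact hy⟩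
      · rintro ⟨⟨z, hz, rfl⟩, hd, hW'⟩
        have hz0 : ⟪z, B 0⟫ ≠ 0 := by
          intro h0
          apply hd
          rw [den_V B hn, h0]
          simp
        refine ⟨inv B (V z), hW', ?_⟩
        have h1 : inv B (V z) = WithLp.toLp 2 fun i => ⟪z, B i.succ⟫ / ⟪z, B 0⟫ := by
          ext i
          rw [inv_V B hn hz hz0]
        rw [par, h1, decomp B z hz0, V_smul (inv_ne_zero hz0)]

/-! ### Derivatives at the centre -/

theorem norm_aff_smul (s : ℝ) (u : E n) :
    ‖aff B ((0 : E n) + s • u)‖ ^ 2 = 1 + s ^ 2 * ‖u‖ ^ 2 := by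
  rw [zero_add, aff, map_smul, norm_add_sq_real, inner_smul_right, real_inner_comm,
    inner_T_zero, norm_smul, mul_pow, norm_T, B.norm_eq_one]
  simp

/-- First derivative of the parametrisation along a line through the centre. -/
noncomputable def d1 (u : E n) (t : ℝ) : E ((n + 1) * (n + 1)) :=
  cn n • ((1 + t ^ 2 * ‖u‖ ^ 2)⁻¹ • ((ten (B 0) (T B u) + ten (T B u) (B 0)) +
    (2 * t) • ten (T B u) (T B u)) +
    (-(2 * t * ‖u‖ ^ 2) / (1 + t ^ 2 * ‖u‖ ^ 2) ^ 2) • (ten (B 0) (B 0) +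
      t • (ten (B 0) (T B u) + ten (T B u) (B 0)) + t ^ 2 • ten (T B u) (T B u)))

theorem par_line (u : E n) (s : ℝ) : par B (0 + s • u) =
    cn n • ((1 + s ^ 2 * ‖u‖ ^ 2)⁻¹ • (ten (B 0) (B 0) +
      s • (ten (B 0) (T B u) + ten (T B u) (B 0)) + s ^ 2 • ten (T B u) (T B u)) -
      (n + 1 : ℝ)⁻¹ • idv n) := by
  unfold par V
  rw [norm_aff_smul]
  congr 3
  rw [aff, zero_add, map_smul, ten_add_left, ten_add_right, ten_add_right, ten_smul_left,
    ten_smul_left, ten_smul_right, ten_smul_right]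
  module

theorem hasDerivAt_par_line (u : E n) (t : ℝ) :
    HasDerivAt (fun s : ℝ => par B (0 + s • u)) (d1 B u t) t := by
  have hpos : (1 + t ^ 2 * ‖u‖ ^ 2) ≠ 0 := by positivity
  have h1 : HasDerivAt (fun s : ℝ => (1 + s ^ 2 * ‖u‖ ^ 2)⁻¹)
      (-(2 * t * ‖u‖ ^ 2) / (1 + t ^ 2 * ‖u‖ ^ 2) ^ 2) t := by
    have h := (((hasDerivAt_id t).pow 2).mul_const (‖u‖ ^ 2)).const_add 1
    have h' := h.inv hpos
    simp only [id] at h'
    refine h'.congr_deriv ?_
    norm_num
  have h2 : HasDerivAt (fun s : ℝ => ten (B 0) (B 0) +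
      s • (ten (B 0) (T B u) + ten (T B u) (B 0)) + s ^ 2 • ten (T B u) (T B u))
      ((ten (B 0) (T B u) + ten (T B u) (B 0)) + (2 * t) • ten (T B u) (T B u)) t := by
    have h3 := (hasDerivAt_id t).smul_const (ten (B 0) (T B u) + ten (T B u) (B 0))
    have h4 := ((hasDerivAt_id t).pow 2).smul_const (ten (T B u) (T B u))
    have h5 := (h3.const_add (ten (B 0) (B 0))).add h4
    simp only [id] at h5
    refine h5.congr_deriv ?_
    norm_num
  have h3 := ((h1.smul h2).sub_const ((n + 1 : ℝ)⁻¹ • idv n)).const_smul (cn n)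
  refine (h3.congr_of_eventuallyEq (Filter.Eventually.of_forall fun s => ?_)).congr_deriv ?_
  · exact par_line B u s
  · rfl

theorem hasDerivAt_d1 (u : E n) : HasDerivAt (d1 B u)
    ((2 * cn n) • (ten (T B u) (T B u) - ‖u‖ ^ 2 • ten (B 0) (B 0))) 0 := by
  have h1 : HasDerivAt (fun s : ℝ => (1 + s ^ 2 * ‖u‖ ^ 2)⁻¹) 0 0 := by
    have h := (((hasDerivAt_id (0 : ℝ)).pow 2).mul_const (‖u‖ ^ 2)).const_add 1
    have h' := h.inv (by norm_num)
    simp only [id] at h'
    refine h'.congr_deriv ?_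
    norm_num
  have h2 : HasDerivAt (fun s : ℝ => -(2 * s * ‖u‖ ^ 2) / (1 + s ^ 2 * ‖u‖ ^ 2) ^ 2)
      (-(2 * ‖u‖ ^ 2)) 0 := by
    have h := (((hasDerivAt_id (0 : ℝ)).pow 2).mul_const (‖u‖ ^ 2)).const_add 1
    have h3 := h.pow 2
    have h4 := (((hasDerivAt_id (0 : ℝ)).const_mul 2).mul_const (‖u‖ ^ 2)).neg
    have h5 := h4.div h3 (by norm_num)
    simp only [id] at h5
    refine h5.congr_deriv ?_
    norm_num
  have h3 : HasDerivAt (fun s : ℝ => (ten (B 0) (T B u) + ten (T B u) (B 0)) +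
      (2 * s) • ten (T B u) (T B u)) ((2 : ℝ) • ten (T B u) (T B u)) 0 := by
    have h := (((hasDerivAt_id (0 : ℝ)).const_mul 2).smul_const (ten (T B u) (T B u))).const_add
      (ten (B 0) (T B u) + ten (T B u) (B 0))
    simp only [id] at h
    refine h.congr_deriv ?_
    norm_num
  have h4 : HasDerivAt (fun s : ℝ => ten (B 0) (B 0) +
      s • (ten (B 0) (T B u) + ten (T B u) (B 0)) + s ^ 2 • ten (T B u) (T B u))
      (ten (B 0) (T B u) + ten (T B u) (B 0)) 0 := by
    have h3 := (hasDerivAt_id (0 : ℝ)).smul_const (ten (B 0) (T B u) + ten (T B u) (B 0))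
    have h4 := ((hasDerivAt_id (0 : ℝ)).pow 2).smul_const (ten (T B u) (T B u))
    have h5 := (h3.const_add (ten (B 0) (B 0))).add h4
    simp only [id] at h5
    refine h5.congr_deriv ?_
    norm_num
  have h5 := ((h1.smul h3).add (h2.smul h4)).const_smul (cn n)
  refine h5.congr_deriv ?_
  norm_num
  module

theorem d1_zero (u : E n) : d1 B u 0 = cn n • (ten (B 0) (T B u) + ten (T B u) (B 0)) := by
  simp [d1]

theorem derivs_par (u : E n) :
    fderiv ℝ (par B) 0 u = cn n • (ten (B 0) (T B u) + ten (T B u) (B 0)) ∧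
    D2 (par B) 0 u u = (2 * cn n) • (ten (T B u) (T B u) - ‖u‖ ^ 2 • ten (B 0) (B 0)) := by
  have h := D2_of_curve (φ := par B) (x := 0) (u := u) (contDiff_par B |>.contDiffAt.of_le le_two)
    (hasDerivAt_par_line B u) (hasDerivAt_d1 B u)
  rw [d1_zero] at h
  exact h

theorem inner_fderiv_par (hn : n ≠ 0) (u w : E n) :
    ⟪fderiv ℝ (par B) 0 u, fderiv ℝ (par B) 0 w⟫ = 2 * ((n + 1) / n) * ⟪u, w⟫ := by
  rw [(derivs_par B u).1, (derivs_par B w).1, ← cn_sq hn]
  simp only [inner_smul_left, inner_smul_right, inner_add_left, inner_add_right, inner_ten,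
    conj_trivial, inner_T, inner_T_zero, real_inner_comm (T B w) (B 0), B.inner_eq_one]
  ring

/-- The factor by which the metric of `ℝPⁿ` differs from the one of the unit sphere. -/
noncomputable def sc (n : ℕ) : ℝ := 2 * ((n + 1) / n)

theorem sc_pos (hn : n ≠ 0) : 0 < sc n := by
  have : (0 : ℝ) < n := by positivity
  unfold sc
  positivity

/-- The orthonormal frame at the centre. -/
noncomputable def fr (n : ℕ) (i : Fin n) : E n := (Real.sqrt (sc n))⁻¹ • EuclideanSpace.single i 1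

theorem sqrt_sc (hn : n ≠ 0) : (Real.sqrt (sc n))⁻¹ * (Real.sqrt (sc n))⁻¹ = (sc n)⁻¹ := by
  rw [← mul_inv, Real.mul_self_sqrt (sc_pos hn).le]

theorem isFrame_fr (hn : n ≠ 0) : IsFrame (par B) 0 (fr n) := by
  unfold IsFrame
  rw [orthonormal_iff_ite]
  intro i j
  rw [inner_fderiv_par B hn, fr, fr, inner_smul_left, inner_smul_right, conj_trivial]
  have h := sqrt_sc hn
  have h' : 2 * ((n + 1) / n) = sc n := rfl
  rw [h', ← mul_assoc ((Real.sqrt (sc n))⁻¹), h, ← mul_assoc, mul_inv_cancel₀ (sc_pos hn).ne',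
    one_mul, EuclideanSpace.inner_single_left]
  simp

theorem traceD2_par (hn : n ≠ 0) : traceD2 (par B) 0 (fr n) = -(n : ℝ) • par B 0 := by
  have h0 : (n : ℝ) ≠ 0 := by positivity
  have hc := cn_pos hn
  have hsum := sum_ten B
  rw [Fin.sum_univ_succ] at hsum
  have h1 : ∀ i, D2 (par B) 0 (fr n i) (fr n i) =
      ((sc n)⁻¹ * (2 * cn n)) • (ten (B i.succ) (B i.succ) - ten (B 0) (B 0)) := by
    intro i
    have h2 := (derivs_par B (EuclideanSpace.single i 1)).2
    rw [T_single] at h2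
    unfold fr
    rw [map_smul, map_smul, _root_.smul_apply, h2, smul_smul, sqrt_sc hn, smul_smul]
    simp
  unfold traceD2
  simp_rw [h1]
  rw [← Finset.smul_sum, Finset.sum_sub_distrib]
  have h3 : ∑ i : Fin n, ten (B i.succ) (B i.succ) = idv n - ten (B 0) (B 0) := by
    rw [← hsum]; abel
  have h4 : par B 0 = cn n • (ten (B 0) (B 0) - (n + 1 : ℝ)⁻¹ • idv n) := by
    simpa using par_line B 0 0
  rw [h3, h4, Finset.sum_const, Finset.card_univ, Fintype.card_fin]
  have hcc : (sc n)⁻¹ * (2 * cn n) = (cn n)⁻¹ := by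
    have := cn_sq hn
    have h5 : sc n = 2 * cn n ^ 2 := by rw [this]; rfl
    rw [h5]
    field_simp
  have hcc' : (n : ℝ) * cn n = (n + 1) * (cn n)⁻¹ := by
    have := cn_sq hn
    field_simp
    rw [this]
    field_simp
  have hcc'' : (cn n)⁻¹ = n * cn n * (n + 1 : ℝ)⁻¹ := by
    rw [hcc']
    field_simp
  rw [hcc, ← Nat.cast_smul_eq_nsmul ℝ]
  match_scalars
  · linear_combination hcc''
  · linear_combination hcc'

end Param

end Pool.Agent.V11193.Ver
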